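import Mathlib
import Pool.Agent.Lib.P4a7640L.Base
import Pool.Agent.Lib.Sieve4.Core

/-!
# Local densities

`XD H D n = ∏_{p ∈ D} [p divides some n + h, h ∈ H]`.

PROOF of `sum_XD`: for a prime `p > h` (all `h ∈ H`) the number of `a ∈ range p` with `p ∣ a + h` for some
`h ∈ H` is `|H|` (the elements of `H` are distinct residues: `a = (p - h) % p`; if `p ∣ a + h` and
`p ∣ a + h'` then `p ∣ |h - h'| < p`). Then `Sieve4.sum_range_prod_crt` with
`F p a = if ∃ h ∈ H, p ∣ a + h then 1 else 0` (note `p ∣ n % p + h ↔ p ∣ n + h`).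

PROOF of `prod_sQ`: swap the products; for fixed `p` at most one `h ∈ H` has `p ∣ n + h`, so
`∏_{h ∈ H} (if p ∣ n + h then -1 else 1) = 1 + (-2) * (if ∃ h ∈ H, p ∣ n + h then 1 else 0)`.
-/

open Finset

namespace Pool.Agent.Lib.P4a7640L

/-- indicator that some `n + h`, `h ∈ H`, is divisible by `p` -/
noncomputable def XP (H : Finset ℕ) (p n : ℕ) : ℝ := by
  classical exact if ∃ h ∈ H, p ∣ n + h then 1 else 0

lemma XP_nonneg (H : Finset ℕ) (p n : ℕ) : 0 ≤ XP H p n := by
  unfold XP; split_ifs <;> norm_num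

lemma XP_le_one (H : Finset ℕ) (p n : ℕ) : XP H p n ≤ 1 := by
  unfold XP; split_ifs <;> norm_num

theorem XP_mod (H : Finset ℕ) {p d n : ℕ} (hpd : p ∣ d) : XP H p (n % d) = XP H p n := by
  have key : ∀ h : ℕ, p ∣ n % d + h ↔ p ∣ n + h := by
    intro h
    rw [Nat.dvd_iff_mod_eq_zero, Nat.dvd_iff_mod_eq_zero, Nat.add_mod (n % d) h,
      Nat.mod_mod_of_dvd n hpd, ← Nat.add_mod]
  unfold XP
  simp only [key]

/-- the number of classes -/
theorem LocalAux.sum_XP {H : Finset ℕ} {p : ℕ} (hp : p.Prime) (hH : ∀ h ∈ H, h < p) :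
    ∑ a ∈ range p, XP H p a = (H.card : ℝ) := by
  classical
  have h1 : ∑ a ∈ range p, XP H p a
      = ((Finset.filter (fun a => ∃ h ∈ H, p ∣ a + h) (range p)).card : ℝ) := by
    rw [Finset.card_filter]
    push_cast
    refine Finset.sum_congr rfl (fun a _ => ?_)
    unfold XP
    split_ifs <;> rfl
  rw [h1]
  congr 1
  have hp0 : 0 < p := hp.pos
  have h2 : Finset.filter (fun a => ∃ h ∈ H, p ∣ a + h) (range p)
      = H.image (fun h => (p - h) % p) := by
    ext a
    rw [Finset.mem_filter, Finset.mem_range, Finset.mem_image]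
    constructor
    · rintro ⟨ha, h, hh, hd⟩
      refine ⟨h, hh, ?_⟩
      have hlt := hH h hh
      obtain ⟨c, hc⟩ := hd
      have hc2 : c < 2 := by
        by_contra hcon
        have : p * 2 ≤ p * c := Nat.mul_le_mul_left p (by omega)
        omega
      interval_cases c
      · have : h = 0 := by omega
        subst this
        have : a = 0 := by omega
        subst this
        simp
      · have h3 : a = p - h := by omega
        rw [← h3]
        exact Nat.mod_eq_of_lt ha
    · rintro ⟨h, hh, rfl⟩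
      refine ⟨Nat.mod_lt _ hp0, h, hh, ?_⟩
      have hlt := hH h hh
      rw [Nat.dvd_iff_mod_eq_zero, Nat.add_mod, Nat.mod_mod, ← Nat.add_mod]
      have : p - h + h = p := by omega
      rw [this, Nat.mod_self]
  rw [h2, Finset.card_image_of_injOn]
  intro x hx y hy hxy
  have hx1 := hH x hx
  have hy1 := hH y hy
  simp only at hxy
  by_cases hx0 : x = 0
  · by_cases hy0 : y = 0
    · rw [hx0, hy0]
    · subst hx0
      rw [Nat.sub_zero, Nat.mod_self, Nat.mod_eq_of_lt (by omega)] at hxy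
      omega
  · by_cases hy0 : y = 0
    · subst hy0
      rw [Nat.sub_zero, Nat.mod_self, Nat.mod_eq_of_lt (by omega)] at hxy
      omega
    · rw [Nat.mod_eq_of_lt (by omega), Nat.mod_eq_of_lt (by omega)] at hxy
      omega

theorem sum_XD {H D : Finset ℕ} (hD : ∀ p ∈ D, p.Prime ∧ ∀ h ∈ H, h < p) :
    ∑ a ∈ range (∏ p ∈ D, p), ∏ p ∈ D, XP H p a = (H.card : ℝ) ^ D.card := by
  have h1 : ∑ a ∈ range (∏ p ∈ D, p), ∏ p ∈ D, XP H p a
      = ∑ a ∈ range (∏ p ∈ D, p), ∏ p ∈ D, XP H p (a % p) := by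
    refine Finset.sum_congr rfl (fun a _ => Finset.prod_congr rfl (fun p _ => ?_))
    rw [XP_mod H (dvd_refl p)]
  rw [h1, Sieve4.sum_range_prod_crt D (fun p hp => (hD p hp).1) (fun p a => XP H p a)]
  rw [Finset.prod_congr rfl (fun p hp => LocalAux.sum_XP (hD p hp).1 (hD p hp).2)]
  rw [Finset.prod_const]

theorem prod_sQ {H Q : Finset ℕ} (hQ : ∀ p ∈ Q, p.Prime ∧ ∀ h ∈ H, h < p) (n : ℕ) :
    ∏ h ∈ H, sQ Q (n + h) = ∏ p ∈ Q, (1 + (-2) * XP H p n) := by
  classical
  unfold sQ
  rw [Finset.prod_comm]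
  refine Finset.prod_congr rfl (fun p hp => ?_)
  by_cases hex : ∃ h ∈ H, p ∣ n + h
  · have hX : XP H p n = 1 := by
      unfold XP
      rw [if_pos hex]
    rw [hX]
    obtain ⟨h, hh, hd⟩ := hex
    rw [Finset.prod_eq_single h]
    · rw [if_pos hd]; norm_num
    · intro b hb hbh
      apply if_neg
      intro hd'
      apply hbh
      have h1 := (hQ p hp).2 h hh
      have h2 := (hQ p hp).2 b hb
      have h3 : (n + b) ≡ (n + h) [MOD p] := by
        rw [Nat.ModEq, Nat.dvd_iff_mod_eq_zero.1 hd', Nat.dvd_iff_mod_eq_zero.1 hd]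
      have h4 : b ≡ h [MOD p] := Nat.ModEq.add_left_cancel' n h3
      rw [Nat.ModEq, Nat.mod_eq_of_lt h1, Nat.mod_eq_of_lt h2] at h4
      exact h4
    · intro h'
      exact absurd hh h'
  · have hX : XP H p n = 0 := by
      unfold XP
      rw [if_neg hex]
    rw [hX]
    push Not at hex
    rw [Finset.prod_eq_one]
    · norm_num
    · intro h hh
      exact if_neg (hex h hh)

end Pool.Agent.Lib.P4a7640L
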