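import Mathlib

/-!
# Logarithmic sums over residue classes

PROOF of `ap_window`: Let `f n = 1/n` (decreasing) and `c_b = ∑_{M < n ≤ N, n ≡ b (d)} f n`. For two classes
`b, b'` the elements interlace, so `|c_b - c_b'| ≤ f (M+1) ≤ 1/M`: with `0 ≤ e < d`, `e ≡ b' - b`,
`c_b' ≤ f(first element) + ∑_{other elements n' ≡ b'} f(n')`, and `n' ↦ n' - e ∈ (M, N]` maps the other
elements injectively into the class `b` with `f n' ≤ f (n' - e)`. Average over `b' ∈ range d`: the total is
`∑_{b'} c_b' = ∑_{M < n ≤ N} 1/n`. (Alternative: induction on `N` is NOT convenient; another way is to compare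
`f(n_j)` with the average of `f` over the block `(n_{j-1}, n_j]` of length `d`.)

PROOF of `window_periodic`: `∑_{M<n≤N} φ n / n = ∑_{a ∈ range d} φ a * c_a` (fiberwise over `n % d`) and
`ap_window` for each `a`.
-/

open Finset

namespace Pool.Agent.Lib.P4a7640L

namespace PeriodAux

/-- the sum over one class -/
noncomputable def cS (M N d a : ℕ) : ℝ := ∑ n ∈ (Ioc M N).filter (fun n => n % d = a % d), (1:ℝ) / n

theorem cS_le {M N d : ℕ} (hM : 1 ≤ M) (hd : 1 ≤ d) (a b : ℕ) :
    cS M N d b ≤ cS M N d a + 1 / (M:ℝ) := by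
  have hM0 : (0 : ℝ) < M := by exact_mod_cast hM
  set e := (b + (d - a % d)) % d with he
  have hed : e < d := Nat.mod_lt _ hd
  have hab : (a + e) % d = b % d := by
    have h1 : a % d < d := Nat.mod_lt _ hd
    rw [he, Nat.add_mod, Nat.mod_mod, ← Nat.add_mod]
    have h2 : (a + (b + (d - a % d))) = b + ((a - a % d) + d) := by
      have := Nat.mod_le a d
      omega
    rw [h2]
    have h3 : a - a % d = d * (a / d) := by
      have := Nat.div_add_mod a d
      omega
    rw [h3, ← Nat.mul_succ, Nat.add_mul_mod_self_left]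
  have hsplit : (Ioc M N).filter (fun n => n % d = b % d) ⊆
      (Ioc M (M + e)).filter (fun n => n % d = b % d) ∪
        (Ioc (M + e) N).filter (fun n => n % d = b % d) := by
    intro n hn
    simp only [mem_union, mem_filter, mem_Ioc] at hn ⊢
    rcases Nat.lt_or_ge (M + e) n with h | h
    · right; exact ⟨⟨h, hn.1.2⟩, hn.2⟩
    · left; exact ⟨⟨hn.1.1, h⟩, hn.2⟩
  have hnn : ∀ n : ℕ, (0 : ℝ) ≤ 1 / n := fun n => by positivity
  have h1 : cS M N d b ≤ ∑ n ∈ (Ioc M (M + e)).filter (fun n => n % d = b % d), (1:ℝ) / n +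
      ∑ n ∈ (Ioc (M + e) N).filter (fun n => n % d = b % d), (1:ℝ) / n := by
    unfold cS
    refine (sum_le_sum_of_subset_of_nonneg hsplit fun n _ _ => hnn n).trans ?_
    rw [← sum_union_inter]
    have := sum_nonneg (s := (Ioc M (M + e)).filter (fun n => n % d = b % d) ∩
        (Ioc (M + e) N).filter (fun n => n % d = b % d)) (f := fun n : ℕ => (1:ℝ) / n)
        (fun n _ => hnn n)
    linarith
  have h2 : ∑ n ∈ (Ioc M (M + e)).filter (fun n => n % d = b % d), (1:ℝ) / n ≤ 1 / (M : ℝ) := by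
    have hcard : ((Ioc M (M + e)).filter (fun n => n % d = b % d)).card ≤ 1 := by
      rw [card_le_one]
      have key : ∀ x y : ℕ, x ≤ y → M < x → y ≤ M + e → x % d = y % d → x = y := by
        intro x y hxy hx hy hm
        have h3 : d ∣ y - x := (Nat.modEq_iff_dvd' hxy).1 hm
        by_contra hne
        have h4 := Nat.le_of_dvd (by omega) h3
        omega
      intro x hx y hy
      simp only [mem_filter, mem_Ioc] at hx hy
      rcases le_total x y with h | h
      · exact key x y h hx.1.1 hy.1.2 (hx.2.trans hy.2.symm)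
      · exact (key y x h hy.1.1 hx.1.2 (hy.2.trans hx.2.symm)).symm
    calc ∑ n ∈ (Ioc M (M + e)).filter (fun n => n % d = b % d), (1:ℝ) / n
        ≤ ∑ n ∈ (Ioc M (M + e)).filter (fun n => n % d = b % d), 1 / (M : ℝ) := by
          refine sum_le_sum fun n hn => ?_
          simp only [mem_filter, mem_Ioc] at hn
          apply one_div_le_one_div_of_le hM0
          exact_mod_cast hn.1.1.le
      _ = (((Ioc M (M + e)).filter (fun n => n % d = b % d)).card : ℝ) * (1 / (M : ℝ)) := by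
          rw [sum_const, nsmul_eq_mul]
      _ ≤ 1 * (1 / (M : ℝ)) := by
          apply mul_le_mul_of_nonneg_right _ (by positivity)
          exact_mod_cast hcard
      _ = 1 / (M : ℝ) := one_mul _
  have h3 : ∑ n ∈ (Ioc (M + e) N).filter (fun n => n % d = b % d), (1:ℝ) / n ≤ cS M N d a := by
    have hinj : Set.InjOn (fun n => n - e)
        ((Ioc (M + e) N).filter (fun n => n % d = b % d) : Finset ℕ) := by
      intro x hx y hy hxy
      simp only [coe_filter, mem_Ioc, Set.mem_ofPred_eq] at hx hy hxy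
      omega
    calc ∑ n ∈ (Ioc (M + e) N).filter (fun n => n % d = b % d), (1:ℝ) / n
        ≤ ∑ n ∈ (Ioc (M + e) N).filter (fun n => n % d = b % d), (1:ℝ) / ((n - e : ℕ) : ℝ) := by
          refine sum_le_sum fun n hn => ?_
          simp only [mem_filter, mem_Ioc] at hn
          apply one_div_le_one_div_of_le
          · exact_mod_cast (by omega : 0 < n - e)
          · exact_mod_cast (by omega : n - e ≤ n)
      _ = ∑ n ∈ ((Ioc (M + e) N).filter (fun n => n % d = b % d)).image (fun n => n - e),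
            (1:ℝ) / n := by
          rw [sum_image hinj]
      _ ≤ cS M N d a := by
          unfold cS
          refine sum_le_sum_of_subset_of_nonneg ?_ fun n _ _ => hnn n
          intro n hn
          simp only [mem_image, mem_filter, mem_Ioc] at hn ⊢
          obtain ⟨m, ⟨⟨hm1, hm2⟩, hm3⟩, rfl⟩ := hn
          refine ⟨⟨by omega, by omega⟩, ?_⟩
          have h4 : (m - e) + e ≡ a + e [MOD d] := by
            have h5 : m - e + e = m := by omega
            rw [h5]
            exact hm3.trans hab.symm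
          exact Nat.ModEq.add_right_cancel' e h4
  linarith

theorem sum_cS {M N d : ℕ} (hd : 1 ≤ d) :
    ∑ b ∈ range d, cS M N d b = ∑ n ∈ Ioc M N, (1:ℝ) / n := by
  unfold cS
  rw [← sum_fiberwise_of_maps_to (g := fun n => n % d) (s := Ioc M N) (t := range d)
    (fun n _ => mem_range.2 (Nat.mod_lt n hd))]
  refine sum_congr rfl fun b hb => ?_
  rw [Nat.mod_eq_of_lt (mem_range.1 hb)]

end PeriodAux

open PeriodAux in
theorem ap_window {M N d a : ℕ} (hM : 1 ≤ M) (hd : 1 ≤ d) :
    |∑ n ∈ (Ioc M N).filter (fun n => n % d = a % d), (1:ℝ) / n -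
      1 / (d:ℝ) * ∑ n ∈ Ioc M N, (1:ℝ) / n| ≤ 1 / (M:ℝ) := by
  have hd0 : (0 : ℝ) < d := by exact_mod_cast hd
  change |cS M N d a - 1 / (d:ℝ) * ∑ n ∈ Ioc M N, (1:ℝ) / n| ≤ 1 / (M:ℝ)
  rw [← sum_cS hd]
  have h1 : ∑ b ∈ range d, cS M N d b ≤ d * (cS M N d a + 1 / (M:ℝ)) := by
    calc ∑ b ∈ range d, cS M N d b ≤ ∑ b ∈ range d, (cS M N d a + 1 / (M:ℝ)) :=
          sum_le_sum fun b _ => cS_le hM hd a b
      _ = _ := by rw [sum_const, card_range, nsmul_eq_mul]
  have h2 : d * (cS M N d a - 1 / (M:ℝ)) ≤ ∑ b ∈ range d, cS M N d b := by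
    calc d * (cS M N d a - 1 / (M:ℝ)) = ∑ b ∈ range d, (cS M N d a - 1 / (M:ℝ)) := by
          rw [sum_const, card_range, nsmul_eq_mul]
      _ ≤ _ := sum_le_sum fun b _ => by
          have := cS_le (N := N) hM hd b a
          linarith
  have h3 : 1 / (d:ℝ) * ∑ b ∈ range d, cS M N d b ≤ cS M N d a + 1 / (M:ℝ) := by
    rw [one_div, inv_mul_le_iff₀ hd0]
    exact h1
  have h4 : cS M N d a - 1 / (M:ℝ) ≤ 1 / (d:ℝ) * ∑ b ∈ range d, cS M N d b := by
    rw [one_div (d : ℝ), le_inv_mul_iff₀ hd0]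
    exact h2
  rw [abs_le]
  constructor <;> linarith

open PeriodAux in
theorem window_periodic {M N d : ℕ} (hM : 1 ≤ M) (hd : 1 ≤ d) (φ : ℕ → ℝ)
    (hφ : ∀ n, φ (n % d) = φ n) :
    |∑ n ∈ Ioc M N, φ n / n - (∑ a ∈ range d, φ a) / (d:ℝ) * ∑ n ∈ Ioc M N, (1:ℝ) / n| ≤
      (∑ a ∈ range d, |φ a|) / (M:ℝ) := by
  have h1 : ∑ n ∈ Ioc M N, φ n / n = ∑ a ∈ range d, φ a * cS M N d a := by
    rw [← sum_fiberwise_of_maps_to (g := fun n => n % d) (s := Ioc M N) (t := range d)
      (fun n _ => mem_range.2 (Nat.mod_lt n hd))]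
    refine sum_congr rfl fun a ha => ?_
    unfold cS
    rw [mul_sum, Nat.mod_eq_of_lt (mem_range.1 ha)]
    refine sum_congr rfl fun n hn => ?_
    rw [mem_filter] at hn
    rw [← hφ n, hn.2]
    ring
  have h2 : (∑ a ∈ range d, φ a) / (d:ℝ) * ∑ n ∈ Ioc M N, (1:ℝ) / n =
      ∑ a ∈ range d, φ a * (1 / (d:ℝ) * ∑ n ∈ Ioc M N, (1:ℝ) / n) := by
    rw [← sum_mul]
    ring
  rw [h1, h2, ← sum_sub_distrib]
  refine (abs_sum_le_sum_abs _ _).trans ?_
  rw [sum_div]
  refine sum_le_sum fun a _ => ?_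
  rw [← mul_sub, abs_mul, div_eq_mul_one_div |φ a|]
  exact mul_le_mul_of_nonneg_left (ap_window hM hd) (abs_nonneg _)

end Pool.Agent.Lib.P4a7640L
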