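import Mathlib

/-!
# Truncated products
-/

open Finset

namespace Pool.Agent.Lib.P4a7640L

/-- elementary symmetric sums -/
def ee {ι : Type*} (x : ι → ℝ) (s : Finset ι) (k : ℕ) : ℝ := ∑ D ∈ s.powersetCard k, ∏ i ∈ D, x i

lemma ee_zero {ι : Type*} (x : ι → ℝ) (s : Finset ι) : ee x s 0 = 1 := by
  unfold ee
  simp

lemma ee_insert {ι : Type*} [DecidableEq ι] (x : ι → ℝ) {s : Finset ι} {a : ι} (ha : a ∉ s) (k : ℕ) :
    ee x (insert a s) (k + 1) = ee x s (k + 1) + x a * ee x s k := by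
  unfold ee
  rw [powersetCard_succ_insert ha, sum_union]
  · congr 1
    rw [sum_image, mul_sum]
    · refine sum_congr rfl fun D hD => ?_
      rw [prod_insert]
      intro h
      exact ha ((mem_powersetCard.mp hD).1 h)
    · intro D hD D' hD' h
      have h1 : a ∉ D := fun h => ha ((mem_powersetCard.mp hD).1 h)
      have h2 : a ∉ D' := fun h => ha ((mem_powersetCard.mp hD').1 h)
      rw [← erase_insert h1, ← erase_insert h2]
      rw [show insert a D = insert a D' from h]
  · rw [disjoint_left]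
    intro D hD hD'
    rw [mem_image] at hD'
    obtain ⟨D', _, rfl⟩ := hD'
    exact ha ((mem_powersetCard.mp hD).1 (mem_insert_self a D'))

lemma ee_empty_succ {ι : Type*} (x : ι → ℝ) (k : ℕ) : ee x ∅ (k + 1) = 0 := by
  unfold ee
  rw [powersetCard_eq_empty.mpr (by simp)]
  simp

lemma ee_abs_nonneg {ι : Type*} (x : ι → ℝ) (s : Finset ι) (k : ℕ) : 0 ≤ ee (fun i => |x i|) s k :=
  sum_nonneg fun _ _ => prod_nonneg fun _ _ => abs_nonneg _

lemma abs_ee_le {ι : Type*} (x : ι → ℝ) (s : Finset ι) (k : ℕ) :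
    |ee x s k| ≤ ee (fun i => |x i|) s k := by
  unfold ee
  refine (abs_sum_le_sum_abs _ _).trans (le_of_eq ?_)
  exact sum_congr rfl fun D _ => abs_prod _ _

lemma EE_insert {ι : Type*} [DecidableEq ι] (x : ι → ℝ) {s : Finset ι} {a : ι} (ha : a ∉ s) (R : ℕ) :
    ∑ k ∈ range (R + 1), ee x (insert a s) k =
      (1 + x a) * (∑ k ∈ range (R + 1), ee x s k) - x a * ee x s R := by
  induction R with
  | zero => simp [ee_zero]
  | succ R ih =>
    rw [sum_range_succ, ih, ee_insert x ha, sum_range_succ _ (R + 1)]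
    ring

theorem trunc {ι : Type*} [DecidableEq ι] (s : Finset ι) (x : ι → ℝ) (hx : ∀ i ∈ s, |1 + x i| ≤ 1)
    (R : ℕ) :
    |∏ i ∈ s, (1 + x i) - ∑ k ∈ range (R + 1), ∑ D ∈ s.powersetCard k, ∏ i ∈ D, x i| ≤
      ∑ D ∈ s.powersetCard (R + 1), ∏ i ∈ D, |x i| := by
  show |∏ i ∈ s, (1 + x i) - ∑ k ∈ range (R + 1), ee x s k| ≤ ee (fun i => |x i|) s (R + 1)
  induction s using Finset.induction_on with
  | empty =>
    rw [ee_empty_succ, prod_empty, sum_range_succ', ee_zero,
      sum_eq_zero fun k _ => ee_empty_succ x k]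
    simp
  | insert a s ha ih =>
    have ih' := ih fun i hi => hx i (mem_insert_of_mem hi)
    rw [prod_insert ha, EE_insert x ha, ee_insert _ ha]
    have h1 : (1 + x a) * ∏ i ∈ s, (1 + x i) -
        ((1 + x a) * ∑ k ∈ range (R + 1), ee x s k - x a * ee x s R) =
        (1 + x a) * (∏ i ∈ s, (1 + x i) - ∑ k ∈ range (R + 1), ee x s k) + x a * ee x s R := by ring
    rw [h1]
    refine (abs_add_le _ _).trans ?_
    rw [abs_mul, abs_mul]
    apply add_le_add
    · calc |1 + x a| * |∏ i ∈ s, (1 + x i) - ∑ k ∈ range (R + 1), ee x s k| ≤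
          1 * |∏ i ∈ s, (1 + x i) - ∑ k ∈ range (R + 1), ee x s k| :=
            mul_le_mul_of_nonneg_right (hx a (mem_insert_self a s)) (abs_nonneg _)
        _ ≤ _ := by rw [one_mul]; exact ih'
    · exact mul_le_mul_of_nonneg_left (abs_ee_le x s R) (abs_nonneg _)

lemma pow_step {a b : ℝ} (ha : 0 ≤ a) (hb : 0 ≤ b) (k : ℕ) :
    a ^ (k + 1) + (k + 1) * b * a ^ k ≤ (b + a) ^ (k + 1) := by
  induction k with
  | zero => simp; linarith
  | succ k ih =>
    have h1 := mul_le_mul_of_nonneg_right ih (show 0 ≤ b + a by linarith)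
    have h2 : 0 ≤ (k + 1 : ℝ) * b * a ^ k * b := by positivity
    rw [pow_succ (b + a) (k + 1)]
    refine le_trans ?_ h1
    push_cast
    have h3 : a ^ (k + 1 + 1) + (k + 1 + 1 : ℝ) * b * a ^ (k + 1) + (k + 1 : ℝ) * b * a ^ k * b =
        (a ^ (k + 1) + (k + 1 : ℝ) * b * a ^ k) * (b + a) := by ring
    linarith

theorem ek_le {ι : Type*} [DecidableEq ι] (s : Finset ι) (x : ι → ℝ) (hx : ∀ i ∈ s, 0 ≤ x i) (k : ℕ) :
    ∑ D ∈ s.powersetCard k, ∏ i ∈ D, x i ≤ (∑ i ∈ s, x i) ^ k / (k.factorial : ℝ) := by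
  show ee x s k ≤ _
  induction s using Finset.induction_on generalizing k with
  | empty =>
    rcases k with _ | k
    · simp [ee_zero]
    · rw [ee_empty_succ]
      simp
  | insert a s ha ih =>
    have hx' : ∀ i ∈ s, 0 ≤ x i := fun i hi => hx i (mem_insert_of_mem hi)
    have hxa : 0 ≤ x a := hx a (mem_insert_self a s)
    rcases k with _ | k
    · simp [ee_zero]
    · rw [ee_insert x ha, sum_insert ha]
      have h1 := ih hx' (k + 1)
      have h2 := ih hx' k
      have hS : 0 ≤ ∑ i ∈ s, x i := sum_nonneg hx'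
      have h3 := pow_step hS hxa k
      have hf : (0:ℝ) < (k.factorial : ℝ) := by exact_mod_cast k.factorial_pos
      have hf1 : (0:ℝ) < ((k + 1).factorial : ℝ) := by exact_mod_cast (k + 1).factorial_pos
      have h4 : ((k + 1).factorial : ℝ) = (k + 1) * (k.factorial : ℝ) := by
        rw [Nat.factorial_succ]
        push_cast
        ring
      rw [le_div_iff₀ hf1]
      rw [le_div_iff₀ hf1] at h1
      rw [le_div_iff₀ hf] at h2
      have h5 : x a * ee x s k * ((k + 1).factorial : ℝ) ≤ (k + 1) * x a * (∑ i ∈ s, x i) ^ k := by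
        rw [h4]
        have := mul_le_mul_of_nonneg_left h2 (show 0 ≤ (k + 1 : ℝ) * x a by positivity)
        linarith
      linarith

theorem card_sum_le {ι : Type*} [DecidableEq ι] (s : Finset ι) {c y : ℝ} (hc : 0 ≤ c)
    (hy : (s.card : ℝ) ≤ y) (R : ℕ) :
    ∑ k ∈ range (R + 1), ∑ _D ∈ s.powersetCard k, c ^ k ≤ (1 + c * y) ^ R := by
  have hy0 : 0 ≤ y := (Nat.cast_nonneg _).trans hy
  calc ∑ k ∈ range (R + 1), ∑ _D ∈ s.powersetCard k, c ^ k
      = ∑ k ∈ range (R + 1), ((s.card.choose k : ℕ) : ℝ) * c ^ k := by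
        refine sum_congr rfl fun k _ => ?_
        rw [sum_const, card_powersetCard, nsmul_eq_mul]
    _ ≤ ∑ k ∈ range (R + 1), (c * y) ^ k * ((R.choose k : ℕ) : ℝ) := by
        refine sum_le_sum fun k hk => ?_
        rw [mem_range] at hk
        have h1 : ((s.card.choose k : ℕ) : ℝ) ≤ y ^ k := by
          calc ((s.card.choose k : ℕ) : ℝ) ≤ ((s.card ^ k : ℕ) : ℝ) := by
                exact_mod_cast Nat.choose_le_pow _ _
            _ ≤ y ^ k := by
                push_cast
                exact pow_le_pow_left₀ (Nat.cast_nonneg _) hy k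
        have h2 : (1:ℝ) ≤ ((R.choose k : ℕ) : ℝ) := by
          exact_mod_cast Nat.choose_pos (by omega)
        calc ((s.card.choose k : ℕ) : ℝ) * c ^ k ≤ y ^ k * c ^ k :=
              mul_le_mul_of_nonneg_right h1 (pow_nonneg hc k)
          _ = (c * y) ^ k * 1 := by rw [mul_pow]; ring
          _ ≤ _ := mul_le_mul_of_nonneg_left h2 (by positivity)
    _ = (1 + c * y) ^ R := by
        rw [add_comm (1:ℝ), add_pow]
        refine sum_congr rfl fun k _ => ?_
        rw [one_pow, mul_one]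

end Pool.Agent.Lib.P4a7640L
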