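import Mathlib
import Pool.Agent.Lib.P4a7640L.Base
import Pool.Agent.Lib.P4a7640L.Trunc
import Pool.Agent.Lib.P4a7640L.Period
import Pool.Agent.Lib.P4a7640L.Local

/-!
# The truncated sieve bound

Truncated products averaged over a logarithmic window, the averages of the single terms being replaced by
their local densities.
-/

open Finset

namespace Pool.Agent.Lib.P4a7640L

open Pool.Agent.Lib.P4a7640

namespace Brun

lemma WA_sum {ι : Type*} (M N : ℕ) (s : Finset ι) (f : ι → ℕ → ℝ) :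
    WA M N (fun n => ∑ i ∈ s, f i n) = ∑ i ∈ s, WA M N (f i) := by
  unfold WA
  rw [← Finset.sum_div, Finset.sum_comm]
  congr 1
  exact Finset.sum_congr rfl fun n _ => by rw [Finset.sum_div]

lemma WA_mul (M N : ℕ) (c : ℝ) (f : ℕ → ℝ) :
    WA M N (fun n => c * f n) = c * WA M N f := by
  unfold WA
  rw [← mul_div_assoc, Finset.mul_sum]
  congr 1
  exact Finset.sum_congr rfl fun n _ => by ring

lemma WA_close {M N : ℕ} (hN : 0 ≤ Real.log N) {f g b : ℕ → ℝ} (h : ∀ n, |f n - g n| ≤ b n) :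
    |WA M N f - WA M N g| ≤ WA M N b := by
  unfold WA
  rw [← sub_div, ← Finset.sum_sub_distrib, abs_div, abs_of_nonneg hN]
  refine div_le_div_of_nonneg_right ?_ hN
  refine (Finset.abs_sum_le_sum_abs _ _).trans (Finset.sum_le_sum fun n _ => ?_)
  rw [← sub_div, abs_div, Nat.abs_cast]
  exact div_le_div_of_nonneg_right (h n) (Nat.cast_nonneg n)

lemma log_ge_one {N : ℕ} (hN : 3 ≤ N) : 1 ≤ Real.log N := by
  rw [Real.le_log_iff_exp_le (by positivity)]
  have h1 : (3:ℝ) ≤ N := by exact_mod_cast hN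
  linarith [Real.exp_one_lt_d9]

/-- the density of the window -/
noncomputable def th (M N : ℕ) : ℝ := (∑ n ∈ Ioc M N, (1:ℝ) / n) / Real.log N

lemma sum_inv_le {M N : ℕ} (hM : 1 ≤ M) : ∑ n ∈ Ioc M N, (1:ℝ) / n ≤ Real.log N := by
  have h1 : ∑ n ∈ Ioc M N, (1:ℝ) / n ≤ ∑ n ∈ Ioc 1 N, (1:ℝ) / n := by
    refine Finset.sum_le_sum_of_subset_of_nonneg ?_ (fun i _ _ => by positivity)
    intro n hn
    rw [Finset.mem_Ioc] at hn ⊢
    exact ⟨by omega, hn.2⟩
  refine h1.trans ?_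
  rcases Nat.eq_zero_or_pos N with h0 | h0
  · subst h0; simp
  induction N, h0 using Nat.le_induction with
  | base => simp
  | succ n hn ih =>
    have hn' : 1 ≤ n := hn
    rw [Finset.sum_Ioc_succ_top hn']
    have h2 : ∑ n ∈ Ioc 1 n, (1:ℝ) / n ≤ Real.log n := by
      refine ih ?_
      refine Finset.sum_le_sum_of_subset_of_nonneg ?_ (fun i _ _ => by positivity)
      intro k hk
      rw [Finset.mem_Ioc] at hk ⊢
      exact ⟨by omega, hk.2⟩
    have hnpos : (0:ℝ) < n := by exact_mod_cast hn'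
    have h3 : (1:ℝ) / ((n + 1 : ℕ) : ℝ) ≤ Real.log ((n + 1 : ℕ) : ℝ) - Real.log n := by
      rw [← Real.log_div (by positivity) (by positivity)]
      have h4 := Real.one_sub_inv_le_log_of_pos (x := ((n + 1 : ℕ) : ℝ) / n) (by positivity)
      refine le_trans (le_of_eq ?_) h4
      push_cast
      field_simp
      ring
    linarith

lemma th_nonneg {M N : ℕ} (hN : 3 ≤ N) : 0 ≤ th M N :=
  div_nonneg (Finset.sum_nonneg fun n _ => by positivity) (by linarith [log_ge_one hN])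

lemma th_le_one {M N : ℕ} (hM : 1 ≤ M) (hN : 3 ≤ N) : th M N ≤ 1 := by
  unfold th
  rw [div_le_one (by linarith [log_ge_one hN])]
  exact sum_inv_le hM

/-- the average of a product of indicators -/
lemma avg_close {H D : Finset ℕ} (hD : ∀ p ∈ D, p.Prime ∧ ∀ h ∈ H, h < p) {M N : ℕ} (hM : 1 ≤ M)
    (hN : 3 ≤ N) :
    |WA M N (fun n => ∏ p ∈ D, XP H p n) - th M N * ∏ p ∈ D, ((H.card : ℝ) / p)| ≤
      (H.card : ℝ) ^ D.card / M := by
  have hlog := log_ge_one hN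
  have hd : 1 ≤ ∏ p ∈ D, p := Finset.one_le_prod' fun p hp => (hD p hp).1.one_lt.le
  have h1 := window_periodic (N := N) hM hd (fun n => ∏ p ∈ D, XP H p n) (fun n =>
    Finset.prod_congr rfl fun p hp => XP_mod H (Finset.dvd_prod_of_mem (fun p => p) hp))
  have h2 : ∑ a ∈ range (∏ p ∈ D, p), |∏ p ∈ D, XP H p a| = (H.card : ℝ) ^ D.card := by
    rw [← sum_XD hD]
    exact Finset.sum_congr rfl fun a _ => abs_of_nonneg (Finset.prod_nonneg fun p _ => XP_nonneg H p a)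
  rw [h2, sum_XD hD] at h1
  have h3 : ∏ p ∈ D, ((H.card : ℝ) / p) = (H.card : ℝ) ^ D.card / ((∏ p ∈ D, p : ℕ) : ℝ) := by
    rw [Finset.prod_div_distrib, Finset.prod_const, Nat.cast_prod]
  have h4 : WA M N (fun n => ∏ p ∈ D, XP H p n) - th M N * ∏ p ∈ D, ((H.card : ℝ) / p) =
      (∑ n ∈ Ioc M N, (∏ p ∈ D, XP H p n) / n -
        (H.card : ℝ) ^ D.card / ((∏ p ∈ D, p : ℕ) : ℝ) * ∑ n ∈ Ioc M N, (1:ℝ) / n) / Real.log N := by
    rw [h3]
    unfold WA th
    ring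
  rw [h4, abs_div, abs_of_nonneg (by linarith : (0:ℝ) ≤ Real.log N)]
  rw [div_le_iff₀ (by linarith)]
  refine h1.trans ?_
  have h5 : 0 ≤ (H.card : ℝ) ^ D.card / M := by positivity
  nlinarith

end Brun

open Brun in
theorem brun_window {H Q : Finset ℕ} (hQ : ∀ p ∈ Q, p.Prime ∧ (∀ h ∈ H, h < p) ∧ 2 * H.card ≤ p)
    {y R M N : ℕ} (hQy : ∀ p ∈ Q, p ≤ y) {Λ : ℝ} (hΛ : ∑ p ∈ Q, (1:ℝ) / p ≤ Λ) (hM : 1 ≤ M)
    (hN : 3 ≤ N) :
    |WA M N (fun n => ∏ h ∈ H, sQ Q (n + h))| ≤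
      Real.exp (-2 * H.card * ∑ p ∈ Q, (1:ℝ) / p) +
        2 * ((2 * H.card * Λ) ^ (R + 1) / ((R + 1).factorial : ℝ)) +
        (1 + 2 * H.card * (y:ℝ)) ^ (R + 1) / (M:ℝ) := by
  have hlog := log_ge_one hN
  have hlog0 : 0 ≤ Real.log (N:ℝ) := by linarith
  have hMpos : (0:ℝ) < M := by exact_mod_cast hM
  set m : ℝ := (H.card : ℝ) with hm
  have hm0 : 0 ≤ m := Nat.cast_nonneg _
  have hQ' : ∀ p ∈ Q, p.Prime ∧ ∀ h ∈ H, h < p := fun p hp => ⟨(hQ p hp).1, (hQ p hp).2.1⟩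
  have hppos : ∀ p ∈ Q, (0:ℝ) < p := fun p hp => by exact_mod_cast (hQ p hp).1.pos
  set A : Finset ℕ → ℝ := fun D => WA M N (fun n => ∏ p ∈ D, XP H p n) with hA
  set θ := th M N with hθ
  have hθ0 : 0 ≤ θ := th_nonneg hN
  have hθ1 : θ ≤ 1 := th_le_one hM hN
  have hAD : ∀ D ⊆ Q, |A D - θ * ∏ p ∈ D, (m / p)| ≤ m ^ D.card / M := fun D hD =>
    avg_close (fun p hp => hQ' p (hD hp)) hM hN
  -- the product
  have hF : (fun n => ∏ h ∈ H, sQ Q (n + h)) = fun n => ∏ p ∈ Q, (1 + (-2) * XP H p n) :=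
    funext fun n => prod_sQ hQ' n
  rw [hF]
  -- truncation
  have hT : ∀ n : ℕ, |∏ p ∈ Q, (1 + (-2) * XP H p n) -
      ∑ k ∈ range (R + 1), ∑ D ∈ Q.powersetCard k, (-2) ^ k * ∏ p ∈ D, XP H p n| ≤
      ∑ D ∈ Q.powersetCard (R + 1), 2 ^ (R + 1) * ∏ p ∈ D, XP H p n := by
    intro n
    have h1 := trunc Q (fun p => (-2) * XP H p n) (fun p _ => by
      have h2 := XP_nonneg H p n
      have h3 := XP_le_one H p n
      rw [abs_le]
      constructor <;> linarith) R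
    have h2 : ∑ k ∈ range (R + 1), ∑ D ∈ Q.powersetCard k, ∏ i ∈ D, (-2) * XP H i n =
        ∑ k ∈ range (R + 1), ∑ D ∈ Q.powersetCard k, (-2) ^ k * ∏ p ∈ D, XP H p n := by
      refine Finset.sum_congr rfl fun k _ => Finset.sum_congr rfl fun D hD => ?_
      rw [Finset.prod_mul_distrib, Finset.prod_const, (Finset.mem_powersetCard.mp hD).2]
    have h3 : ∑ D ∈ Q.powersetCard (R + 1), ∏ i ∈ D, |(-2) * XP H i n| =
        ∑ D ∈ Q.powersetCard (R + 1), 2 ^ (R + 1) * ∏ p ∈ D, XP H p n := by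
      refine Finset.sum_congr rfl fun D hD => ?_
      have h4 : ∀ i ∈ D, |(-2) * XP H i n| = 2 * XP H i n := fun i _ => by
        rw [abs_mul, abs_of_nonneg (XP_nonneg H i n)]
        norm_num
      rw [Finset.prod_congr rfl h4, Finset.prod_mul_distrib, Finset.prod_const,
        (Finset.mem_powersetCard.mp hD).2]
    rw [h2, h3] at h1
    exact h1
  have hW1 := WA_close (M := M) hlog0 hT
  have hE : WA M N (fun n => ∑ k ∈ range (R + 1), ∑ D ∈ Q.powersetCard k,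
      (-2) ^ k * ∏ p ∈ D, XP H p n) = ∑ k ∈ range (R + 1), ∑ D ∈ Q.powersetCard k, (-2) ^ k * A D := by
    rw [WA_sum]
    refine Finset.sum_congr rfl fun k _ => ?_
    rw [WA_sum]
    exact Finset.sum_congr rfl fun D _ => WA_mul _ _ _ _
  have hB : WA M N (fun n => ∑ D ∈ Q.powersetCard (R + 1), 2 ^ (R + 1) * ∏ p ∈ D, XP H p n) =
      ∑ D ∈ Q.powersetCard (R + 1), 2 ^ (R + 1) * A D := by
    rw [WA_sum]
    exact Finset.sum_congr rfl fun D _ => WA_mul _ _ _ _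
  rw [hE, hB] at hW1
  -- replacement of the averages
  have hR1 : |∑ k ∈ range (R + 1), ∑ D ∈ Q.powersetCard k, (-2) ^ k * A D -
      θ * ∑ k ∈ range (R + 1), ∑ D ∈ Q.powersetCard k, ∏ p ∈ D, (-(2 * m / p))| ≤
      ∑ k ∈ range (R + 1), ∑ D ∈ Q.powersetCard k, (2 * m) ^ k / M := by
    rw [Finset.mul_sum, ← Finset.sum_sub_distrib]
    refine (Finset.abs_sum_le_sum_abs _ _).trans (Finset.sum_le_sum fun k _ => ?_)
    rw [Finset.mul_sum, ← Finset.sum_sub_distrib]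
    refine (Finset.abs_sum_le_sum_abs _ _).trans (Finset.sum_le_sum fun D hD => ?_)
    obtain ⟨hDQ, hDk⟩ := Finset.mem_powersetCard.mp hD
    have h1 : ∏ p ∈ D, (-(2 * m / p)) = (-2) ^ k * ∏ p ∈ D, (m / p) := by
      rw [← hDk, ← Finset.prod_const, ← Finset.prod_mul_distrib]
      exact Finset.prod_congr rfl fun p _ => by ring
    rw [h1, show (-2 : ℝ) ^ k * A D - θ * ((-2) ^ k * ∏ p ∈ D, (m / p)) =
      (-2) ^ k * (A D - θ * ∏ p ∈ D, (m / p)) by ring, abs_mul, abs_pow, abs_neg, abs_two, mul_pow,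
      mul_div_assoc]
    exact mul_le_mul_of_nonneg_left (by rw [← hDk]; exact hAD D hDQ) (by positivity)
  have hR2 : ∑ D ∈ Q.powersetCard (R + 1), 2 ^ (R + 1) * A D ≤
      θ * ∑ D ∈ Q.powersetCard (R + 1), ∏ p ∈ D, (2 * m / p) +
      ∑ D ∈ Q.powersetCard (R + 1), (2 * m) ^ (R + 1) / M := by
    rw [Finset.mul_sum, ← Finset.sum_add_distrib]
    refine Finset.sum_le_sum fun D hD => ?_
    obtain ⟨hDQ, hDk⟩ := Finset.mem_powersetCard.mp hD
    have h1 : ∏ p ∈ D, (2 * m / p) = 2 ^ (R + 1) * ∏ p ∈ D, (m / p) := by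
      rw [← hDk, ← Finset.prod_const, ← Finset.prod_mul_distrib]
      exact Finset.prod_congr rfl fun p _ => by ring
    have h2 := (abs_le.mp (hAD D hDQ)).2
    rw [hDk] at h2
    rw [h1, mul_pow, mul_div_assoc]
    have h3 : (0:ℝ) ≤ 2 ^ (R + 1) := by positivity
    nlinarith
  have hR3 : |∏ p ∈ Q, (1 + (-(2 * m / p))) -
      ∑ k ∈ range (R + 1), ∑ D ∈ Q.powersetCard k, ∏ p ∈ D, (-(2 * m / p))| ≤
      ∑ D ∈ Q.powersetCard (R + 1), ∏ p ∈ D, (2 * m / p) := by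
    have h1 := trunc Q (fun p => (-(2 * m / p) : ℝ)) (fun p hp => by
      have h2 : (2 * m / p : ℝ) ≤ 1 := by
        rw [div_le_one (hppos p hp), hm]
        exact_mod_cast (hQ p hp).2.2
      have h3 : 0 ≤ (2 * m / p : ℝ) := by positivity
      rw [abs_le]
      constructor <;> linarith) R
    refine h1.trans (le_of_eq (Finset.sum_congr rfl fun D _ => Finset.prod_congr rfl fun p _ => ?_))
    rw [abs_neg, abs_of_nonneg (by positivity)]
  have hP : ∏ p ∈ Q, (1 + (-(2 * m / p))) ≤ Real.exp (-2 * m * ∑ p ∈ Q, (1:ℝ) / p) := by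
    rw [Finset.mul_sum, Real.exp_sum]
    refine Finset.prod_le_prod (fun p hp => ?_) (fun p hp => ?_)
    · have h2 : (2 * m / p : ℝ) ≤ 1 := by
        rw [div_le_one (hppos p hp), hm]
        exact_mod_cast (hQ p hp).2.2
      linarith
    · have h3 := Real.add_one_le_exp (-2 * m * (1 / (p:ℝ)))
      refine le_trans (le_of_eq ?_) h3
      ring
  have hP0 : 0 ≤ ∏ p ∈ Q, (1 + (-(2 * m / (p:ℝ)))) := by
    refine Finset.prod_nonneg fun p hp => ?_
    have h2 : (2 * m / p : ℝ) ≤ 1 := by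
      rw [div_le_one (hppos p hp), hm]
      exact_mod_cast (hQ p hp).2.2
    linarith
  have he : ∑ D ∈ Q.powersetCard (R + 1), ∏ p ∈ D, (2 * m / (p:ℝ)) ≤
      (2 * m * Λ) ^ (R + 1) / ((R + 1).factorial : ℝ) := by
    refine (ek_le Q (fun p => (2 * m / p : ℝ)) (fun p _ => by positivity) (R + 1)).trans ?_
    refine div_le_div_of_nonneg_right ?_ (by positivity)
    refine pow_le_pow_left₀ (Finset.sum_nonneg fun p _ => by positivity) ?_ _
    have h1 : ∑ i ∈ Q, (2 * m / (i:ℝ)) = 2 * m * ∑ p ∈ Q, (1:ℝ) / p := by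
      rw [Finset.mul_sum]
      exact Finset.sum_congr rfl fun p _ => by ring
    rw [h1]
    exact mul_le_mul_of_nonneg_left hΛ (by positivity)
  have he0 : 0 ≤ ∑ D ∈ Q.powersetCard (R + 1), ∏ p ∈ D, (2 * m / (p:ℝ)) :=
    Finset.sum_nonneg fun D _ => Finset.prod_nonneg fun p _ => by positivity
  have hcard : (Q.card : ℝ) ≤ y := by
    have h1 : Q ⊆ Finset.Ioc 0 y := fun p hp => Finset.mem_Ioc.mpr ⟨(hQ p hp).1.pos, hQy p hp⟩
    have h2 := Finset.card_le_card h1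
    rw [Nat.card_Ioc] at h2
    exact_mod_cast h2
  have hc := card_sum_le Q (c := 2 * m) (by positivity) hcard (R + 1)
  rw [Finset.sum_range_succ] at hc
  have hc' : ∑ k ∈ range (R + 1), ∑ D ∈ Q.powersetCard k, (2 * m) ^ k / M +
      ∑ D ∈ Q.powersetCard (R + 1), (2 * m) ^ (R + 1) / M ≤ (1 + 2 * m * y) ^ (R + 1) / M := by
    have h1 : ∑ k ∈ range (R + 1), ∑ D ∈ Q.powersetCard k, (2 * m) ^ k / M +
      ∑ D ∈ Q.powersetCard (R + 1), (2 * m) ^ (R + 1) / M =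
      (∑ k ∈ range (R + 1), ∑ D ∈ Q.powersetCard k, (2 * m) ^ k +
      ∑ D ∈ Q.powersetCard (R + 1), (2 * m) ^ (R + 1)) / M := by
      rw [add_div, Finset.sum_div, Finset.sum_div]
      congr 1
      exact Finset.sum_congr rfl fun k _ => by rw [Finset.sum_div]
    rw [h1]
    exact div_le_div_of_nonneg_right hc hMpos.le
  -- conclusion
  set WF := WA M N (fun n => ∏ p ∈ Q, (1 + (-2) * XP H p n))
  set WE := ∑ k ∈ range (R + 1), ∑ D ∈ Q.powersetCard k, (-2) ^ k * A D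
  set E' := ∑ k ∈ range (R + 1), ∑ D ∈ Q.powersetCard k, ∏ p ∈ D, (-(2 * m / (p:ℝ)))
  set P' := ∏ p ∈ Q, (1 + (-(2 * m / (p:ℝ))))
  set e := ∑ D ∈ Q.powersetCard (R + 1), ∏ p ∈ D, (2 * m / (p:ℝ))
  have k1 : |θ * E' - θ * P'| ≤ e := by
    rw [← mul_sub, abs_mul, abs_of_nonneg hθ0, abs_sub_comm]
    calc θ * |P' - E'| ≤ 1 * |P' - E'| := mul_le_mul_of_nonneg_right hθ1 (abs_nonneg _)
      _ = |P' - E'| := one_mul _
      _ ≤ e := hR3
  have k2 : |θ * P'| ≤ P' := by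
    rw [abs_mul, abs_of_nonneg hθ0, abs_of_nonneg hP0]
    nlinarith
  have k3 : θ * e ≤ e := by nlinarith
  have k4 : |WF| ≤ |WF - WE| + |WE - θ * E'| + |θ * E' - θ * P'| + |θ * P'| := by
    have a1 := abs_sub_abs_le_abs_sub WF WE
    have a2 := abs_sub_abs_le_abs_sub WE (θ * E')
    have a3 := abs_sub_abs_le_abs_sub (θ * E') (θ * P')
    linarith
  linarith
end Pool.Agent.Lib.P4a7640L
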