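import Mathlib
import Pool.Agent.Lib.P4a7640L.Base

/-!
# Bessel inequality and packing
-/

open Finset

namespace Pool.Agent.Lib.P4a7640L

open Pool.Agent.Lib.P4a7640

lemma WA_one_le {M N : ℕ} (hM : 1 ≤ M) (hN : 3 ≤ N) : WA M N (fun _ => 1) ≤ 1 := by
  have hl : 0 < Real.log N := Real.log_pos (by
    have : (3:ℝ) ≤ N := by exact_mod_cast hN
    linarith)
  unfold WA
  rw [div_le_one hl]
  rcases Nat.lt_or_ge N M with h | h
  · rw [Finset.Ioc_eq_empty (by omega)]
    simpa using hl.le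
  · have h1 := sum_Ioc_inv_le hM h
    have h2 : 0 ≤ Real.log M := Real.log_nonneg (by exact_mod_cast hM)
    linarith

lemma WA_le_one {M N : ℕ} (hM : 1 ≤ M) (hN : 3 ≤ N) {u : ℕ → ℝ} (hu : ∀ n, u n ≤ 1) :
    WA M N u ≤ 1 := by
  have hl : 0 < Real.log N := Real.log_pos (by
    have : (3:ℝ) ≤ N := by exact_mod_cast hN
    linarith)
  refine le_trans ?_ (WA_one_le hM hN)
  unfold WA
  refine div_le_div_of_nonneg_right (Finset.sum_le_sum fun n _ => ?_) hl.le
  exact div_le_div_of_nonneg_right (hu n) (Nat.cast_nonneg n)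

lemma WA_sum {M N : ℕ} {ι : Type*} (s : Finset ι) (c : ι → ℝ) (u : ι → ℕ → ℝ) :
    WA M N (fun n => ∑ i ∈ s, c i * u i n) = ∑ i ∈ s, c i * WA M N (u i) := by
  unfold WA
  rw [Finset.sum_congr rfl fun n _ => Finset.sum_div s (fun i => c i * u i n) (n:ℝ), Finset.sum_comm,
    Finset.sum_div]
  refine Finset.sum_congr rfl fun i _ => ?_
  rw [mul_div_assoc', Finset.mul_sum]
  congr 1
  exact Finset.sum_congr rfl fun n _ => by ring

lemma WA_sq_le {M N : ℕ} (hN : 3 ≤ N) {G u : ℕ → ℝ} (hG : ∀ n, |G n| ≤ 1) (hM : 1 ≤ M) :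
    WA M N (fun n => G n * u n) ^ 2 ≤ WA M N (fun n => u n ^ 2) := by
  have hl : 0 < Real.log N := Real.log_pos (by
    have : (3:ℝ) ≤ N := by exact_mod_cast hN
    linarith)
  have h1 : (∑ n ∈ Ioc M N, G n * u n / n) ^ 2 ≤
      (∑ n ∈ Ioc M N, G n ^ 2 / n) * ∑ n ∈ Ioc M N, u n ^ 2 / n := by
    refine Finset.sum_sq_le_sum_mul_sum_of_sq_le_mul _ (fun n _ => by positivity)
      (fun n _ => by positivity) fun n hn => le_of_eq ?_
    ring
  have h2 : WA M N (fun n => G n ^ 2) ≤ 1 := by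
    apply WA_le_one hM hN
    intro n
    rw [← sq_abs]
    exact pow_le_one₀ (abs_nonneg _) (hG n)
  have h3 : 0 ≤ WA M N (fun n => u n ^ 2) := by
    unfold WA
    exact div_nonneg (Finset.sum_nonneg fun n _ => by positivity) hl.le
  calc WA M N (fun n => G n * u n) ^ 2 = (∑ n ∈ Ioc M N, G n * u n / n) ^ 2 / Real.log N ^ 2 := by
        unfold WA
        rw [div_pow]
    _ ≤ ((∑ n ∈ Ioc M N, G n ^ 2 / n) * ∑ n ∈ Ioc M N, u n ^ 2 / n) / Real.log N ^ 2 :=
        div_le_div_of_nonneg_right h1 (by positivity)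
    _ = WA M N (fun n => G n ^ 2) * WA M N (fun n => u n ^ 2) := by
        unfold WA
        field_simp
    _ ≤ 1 * WA M N (fun n => u n ^ 2) := mul_le_mul_of_nonneg_right h2 h3
    _ = _ := one_mul _

theorem bessel {M N : ℕ} (hM : 1 ≤ M) (hN : 3 ≤ N) {G : ℕ → ℝ} (hG : ∀ n, |G n| ≤ 1) {ι : Type*}
    (s : Finset ι) {ψ : ι → ℕ → ℝ} (hψ : ∀ i ∈ s, ∀ n, |ψ i n| ≤ 1) {δ : ℝ} (hδ : 0 < δ)
    (h1 : ∀ i ∈ s, δ ≤ |WA M N (fun n => G n * ψ i n)|)
    (h2 : ∀ i ∈ s, ∀ j ∈ s, i ≠ j → |WA M N (fun n => ψ i n * ψ j n)| ≤ δ ^ 2 / 2) :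
    (s.card : ℝ) ≤ 2 / δ ^ 2 := by
  classical
  set L : ℝ := (s.card : ℝ) with hL
  have hL0 : 0 ≤ L := Nat.cast_nonneg _
  set σ : ι → ℝ := fun i => if 0 ≤ WA M N (fun n => G n * ψ i n) then 1 else -1 with hσ
  have hσ1 : ∀ i, |σ i| = 1 := by
    intro i
    rw [hσ]
    dsimp only
    split_ifs <;> simp
  have hσ2 : ∀ i, σ i * WA M N (fun n => G n * ψ i n) = |WA M N (fun n => G n * ψ i n)| := by
    intro i
    rw [hσ]
    dsimp only
    split_ifs with h
    · rw [one_mul, abs_of_nonneg h]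
    · rw [abs_of_neg (not_le.mp h)]
      ring
  have h3 : L * δ ≤ WA M N (fun n => G n * ∑ i ∈ s, σ i * ψ i n) := by
    have h4 : (fun n => G n * ∑ i ∈ s, σ i * ψ i n) =
        fun n => ∑ i ∈ s, σ i * (G n * ψ i n) := by
      funext n
      rw [Finset.mul_sum]
      exact Finset.sum_congr rfl fun i _ => by ring
    rw [h4, WA_sum s σ (fun i n => G n * ψ i n)]
    calc L * δ = ∑ i ∈ s, δ := by rw [Finset.sum_const, nsmul_eq_mul]
      _ ≤ _ := Finset.sum_le_sum fun i hi => by
          rw [hσ2]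
          exact h1 i hi
  have h5 : WA M N (fun n => (∑ i ∈ s, σ i * ψ i n) ^ 2) ≤ L + L ^ 2 * (δ ^ 2 / 2) := by
    have h6 : (fun n => (∑ i ∈ s, σ i * ψ i n) ^ 2) =
        fun n => ∑ i ∈ s, σ i * ∑ j ∈ s, σ j * (ψ i n * ψ j n) := by
      funext n
      rw [sq, Finset.sum_mul_sum]
      refine Finset.sum_congr rfl fun i _ => ?_
      rw [Finset.mul_sum]
      exact Finset.sum_congr rfl fun j _ => by ring
    rw [h6, WA_sum s σ (fun i n => ∑ j ∈ s, σ j * (ψ i n * ψ j n))]
    calc ∑ i ∈ s, σ i * WA M N (fun n => ∑ j ∈ s, σ j * (ψ i n * ψ j n))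
        ≤ ∑ i ∈ s, (1 + L * (δ ^ 2 / 2)) := by
          refine Finset.sum_le_sum fun i hi => ?_
          rw [WA_sum s σ (fun j n => ψ i n * ψ j n)]
          calc σ i * ∑ j ∈ s, σ j * WA M N (fun n => ψ i n * ψ j n)
              ≤ |σ i * ∑ j ∈ s, σ j * WA M N (fun n => ψ i n * ψ j n)| := le_abs_self _
            _ ≤ ∑ j ∈ s, |WA M N (fun n => ψ i n * ψ j n)| := by
                rw [abs_mul, hσ1, one_mul]
                refine (Finset.abs_sum_le_sum_abs _ _).trans (le_of_eq ?_)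
                exact Finset.sum_congr rfl fun j _ => by rw [abs_mul, hσ1, one_mul]
            _ ≤ ∑ j ∈ s, ((if j = i then 1 else 0) + δ ^ 2 / 2) := by
                refine Finset.sum_le_sum fun j hj => ?_
                by_cases hij : j = i
                · rw [if_pos hij]
                  have h7 : |WA M N (fun n => ψ i n * ψ j n)| ≤ 1 := by
                    have hp : ∀ n, |ψ i n * ψ j n| ≤ 1 := by
                      intro n
                      rw [abs_mul]
                      exact mul_le_one₀ (hψ i hi n) (abs_nonneg _) (hψ j hj n)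
                    rw [abs_le]
                    constructor
                    · have h8 := WA_le_one (M := M) (N := N) (u := fun n => -(ψ i n * ψ j n)) hM hN
                        (fun n => (neg_le_abs _).trans (hp n))
                      have h9 : WA M N (fun n => -(ψ i n * ψ j n)) =
                          -WA M N (fun n => ψ i n * ψ j n) := by
                        unfold WA
                        rw [← neg_div, ← Finset.sum_neg_distrib]
                        congr 1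
                        exact Finset.sum_congr rfl fun n _ => by ring
                      linarith
                    · exact WA_le_one hM hN (fun n => (le_abs_self _).trans (hp n))
                  have : 0 ≤ δ ^ 2 / 2 := by positivity
                  linarith
                · rw [if_neg hij, zero_add]
                  exact h2 i hi j hj (Ne.symm hij)
            _ = 1 + L * (δ ^ 2 / 2) := by
                rw [Finset.sum_add_distrib, Finset.sum_ite_eq' s i, if_pos hi, Finset.sum_const,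
                  nsmul_eq_mul]
      _ = L + L ^ 2 * (δ ^ 2 / 2) := by
          rw [Finset.sum_const, nsmul_eq_mul]
          ring
  have h6 := WA_sq_le (M := M) (N := N) hN (G := G) (u := fun n => ∑ i ∈ s, σ i * ψ i n) hG hM
  have h7 : (L * δ) ^ 2 ≤ L + L ^ 2 * (δ ^ 2 / 2) := by
    calc (L * δ) ^ 2 ≤ WA M N (fun n => G n * ∑ i ∈ s, σ i * ψ i n) ^ 2 :=
          pow_le_pow_left₀ (by positivity) h3 2
      _ ≤ _ := h6.trans h5
  rw [le_div_iff₀ (by positivity)]
  rcases hL0.eq_or_lt with h | h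
  · rw [← h]
    norm_num
  · have h8 : L * (L * δ ^ 2) ≤ L * 2 := by nlinarith
    exact le_of_mul_le_mul_left h8 h

theorem packing {A : Set ℝ} {r : ℝ} (hr : 0 < r) {L : ℕ}
    (h : ∀ s : Finset ℝ, (∀ x ∈ s, x ∈ A) → (∀ x ∈ s, ∀ y ∈ s, x ≠ y → r ≤ |x - y|) → s.card ≤ L) :
    ∃ F : Finset ℝ, F.card ≤ L ∧ ∀ x ∈ A, ∃ y ∈ F, |x - y| ≤ r := by
  classical
  set P : ℕ → Prop := fun k => ∃ s : Finset ℝ, (∀ x ∈ s, x ∈ A) ∧
    (∀ x ∈ s, ∀ y ∈ s, x ≠ y → r ≤ |x - y|) ∧ s.card = k with hP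
  have h0 : P 0 := ⟨∅, by simp, by simp, by simp⟩
  have hfg := Nat.findGreatest_spec (P := P) (Nat.zero_le L) h0
  obtain ⟨F, hFA, hFr, hFc⟩ := hfg
  refine ⟨F, h F hFA hFr, fun x hx => ?_⟩
  by_contra hcon
  push Not at hcon
  have hxF : x ∉ F := by
    intro hxF
    have := hcon x hxF
    rw [sub_self, abs_zero] at this
    linarith
  have h1 : P (F.card + 1) := by
    refine ⟨insert x F, ?_, ?_, Finset.card_insert_of_notMem hxF⟩
    · intro y hy
      rcases Finset.mem_insert.mp hy with h4 | h4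
      · rw [h4]; exact hx
      · exact hFA y h4
    · intro y hy y' hy' hne
      rcases Finset.mem_insert.mp hy with h4 | h4 <;> rcases Finset.mem_insert.mp hy' with h5 | h5
      · exact absurd (h4.trans h5.symm) hne
      · rw [h4]
        exact (hcon y' h5).le
      · rw [h5, abs_sub_comm]
        exact (hcon y h4).le
      · exact hFr y h4 y' h5 hne
  obtain ⟨s, hs1, hs2, hs3⟩ := h1
  have h2 : F.card + 1 ≤ L := hs3 ▸ h s hs1 hs2
  have h3 := Nat.le_findGreatest (P := P) h2 ⟨s, hs1, hs2, hs3⟩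
  omega

end Pool.Agent.Lib.P4a7640L
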