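import Mathlib
import Pool.Agent.Lib.P4a7640L.Brun

/-!
# Choice of parameters in the sieve bound
-/

open Finset Filter Topology

namespace Pool.Agent.Lib.P4a7640L

open Pool.Agent.Lib.P4a7640

namespace Param

lemma tendsto_log_nat : Tendsto (fun N : ℕ => Real.log (N:ℝ)) atTop atTop :=
  Real.tendsto_log_atTop.comp tendsto_natCast_atTop_atTop

lemma tendsto_ll : Tendsto (fun N : ℕ => ll (N:ℝ)) atTop atTop :=
  Real.tendsto_log_atTop.comp tendsto_log_nat

/-- `a log x - b x → -∞` -/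
lemma tendsto_aux (a : ℝ) {b : ℝ} (hb : 0 < b) :
    Tendsto (fun x : ℝ => Real.exp (a * Real.log x - b * x)) atTop (𝓝 0) := by
  rw [Real.tendsto_exp_comp_nhds_zero]
  have h1 : Tendsto (fun x : ℝ => x * (b - a * (Real.log x / x))) atTop atTop := by
    refine Tendsto.atTop_mul_pos hb tendsto_id ?_
    have h2 : Tendsto (fun x : ℝ => Real.log x / x) atTop (𝓝 0) := by
      have := Real.isLittleO_log_id_atTop
      exact this.tendsto_div_nhds_zero
    have h3 := (tendsto_const_nhds (x := b)).sub ((tendsto_const_nhds (x := a)).mul h2)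
    simpa using h3
  have h2 : Tendsto (fun x : ℝ => -(x * (b - a * (Real.log x / x)))) atTop atBot :=
    tendsto_neg_atTop_atBot.comp h1
  refine h2.congr' ?_
  filter_upwards [eventually_gt_atTop 0] with x hx
  field_simp
  ring

lemma pow_div_fact_le (M : ℝ) (n : ℕ) (hM : 0 ≤ M) (hn : 0 < n)
    (h : M * Real.exp 2 ≤ n) : M ^ n / (n.factorial : ℝ) ≤ Real.exp (-n) := by
  have hn' : (0 : ℝ) < n := by exact_mod_cast hn
  have h1 := Real.pow_div_factorial_le_exp (n : ℝ) hn'.le n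
  have h2 : M / n ≤ Real.exp (-2) := by
    rw [div_le_iff₀ hn', Real.exp_neg, ← div_eq_inv_mul, le_div_iff₀ (Real.exp_pos 2)]
    exact h
  have h3 : (M / n) ^ n ≤ Real.exp (-2) ^ n :=
    pow_le_pow_left₀ (by positivity) h2 n
  calc M ^ n / (n.factorial : ℝ) = (M / n) ^ n * ((n : ℝ) ^ n / n.factorial) := by
        rw [div_pow]
        field_simp
    _ ≤ Real.exp (-2) ^ n * Real.exp n := by gcongr
    _ = Real.exp (-n) := by
        rw [← Real.exp_nat_mul, ← Real.exp_add]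
        congr 1
        ring

end Param

open Param in
theorem brun_asym (H : Finset ℕ) {δ ε : ℝ} (hδ : 0 < δ) (hε : 0 < ε) :
    ∃ C : ℝ, 1 ≤ C ∧ ∀ᶠ N : ℕ in atTop, ∀ Q : Finset ℕ,
      (∀ p ∈ Q, p.Prime ∧ zH H < p ∧ C * ll N * Real.log p ≤ Real.log N) →
      |WA (Mw δ N) N (fun n => ∏ h ∈ H, sQ Q (n + h))| ≤
        Real.exp (-2 * H.card * ∑ p ∈ Q, (1:ℝ) / p) + ε := by
  set m : ℝ := (H.card : ℝ) with hm
  have hm0 : 0 ≤ m := Nat.cast_nonneg _
  set K : ℝ := 2 * m * Real.exp 2 + 1 with hK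
  have hK1 : 1 ≤ K := by
    have : 0 ≤ 2 * m * Real.exp 2 := by positivity
    linarith
  set C₁ : ℝ := 7 * K + 2 with hC₁
  have hC₁0 : 0 < C₁ := by linarith
  set C : ℝ := 2 * C₁ / δ + 1 with hC
  have hC0 : 0 ≤ 2 * C₁ / δ := by positivity
  have hC1 : 1 ≤ C := by linarith
  refine ⟨C, hC1, ?_⟩
  have e1 : ∀ᶠ N : ℕ in atTop, 1 ≤ ll (N:ℝ) := tendsto_ll.eventually_ge_atTop 1
  have e2 : ∀ᶠ N : ℕ in atTop, 4 / ε ≤ Real.log (N:ℝ) := tendsto_log_nat.eventually_ge_atTop _
  have e3 : ∀ᶠ N : ℕ in atTop, Real.exp ((C₁ * Real.log (1 + 2 * m)) * Real.log (Real.log (N:ℝ)) -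
      δ / 2 * Real.log (N:ℝ)) ≤ ε / 2 := by
    have h1 := (tendsto_aux (C₁ * Real.log (1 + 2 * m)) (half_pos hδ)).comp tendsto_log_nat
    have h2 := h1.eventually (ge_mem_nhds (half_pos hε))
    filter_upwards [h2] with N hN
    exact hN
  filter_upwards [e1, e2, e3, eventually_ge_atTop 3] with N hS hlogε hthird hN3 Q hQ
  set S : ℝ := ll (N:ℝ) with hSdef
  have hN3' : (3:ℝ) ≤ N := by exact_mod_cast hN3
  have hNpos : (0:ℝ) < N := by linarith
  have hlogpos : 0 < Real.log (N:ℝ) := Real.log_pos (by linarith)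
  have hCS : 0 < C * S := by positivity
  have hCS1 : 1 ≤ C * S := by nlinarith
  set Λ : ℝ := S + 6 with hΛ
  set R : ℕ := ⌈K * Λ⌉₊ with hR
  have hKΛ : 0 ≤ K * Λ := by
    have : 0 ≤ Λ := by linarith
    positivity
  have hR1 : K * Λ ≤ R := Nat.le_ceil _
  have hR2 : ((R + 1 : ℕ) : ℝ) ≤ C₁ * S := by
    have h1 := Nat.ceil_lt_add_one hKΛ
    push_cast
    have h2 : K * Λ + 2 ≤ C₁ * S := by
      rw [hC₁, hΛ]
      nlinarith
    linarith
  -- the primes
  have hp1 : ∀ p ∈ Q, (1:ℝ) ≤ p := fun p hp => by exact_mod_cast (hQ p hp).1.one_lt.le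
  have hlogp : ∀ p ∈ Q, Real.log (p:ℝ) ≤ Real.log N / (C * S) := fun p hp => by
    rw [le_div_iff₀ hCS]
    have := (hQ p hp).2.2
    linarith
  set y : ℕ := ⌊Real.exp (Real.log N / (C * S))⌋₊ with hy
  have hQy : ∀ p ∈ Q, p ≤ y := fun p hp => by
    rw [hy]
    refine Nat.le_floor ?_
    have h1 := hlogp p hp
    rwa [Real.log_le_iff_le_exp (by linarith [hp1 p hp])] at h1
  have hQN : ∀ p ∈ Q, p ≤ N := fun p hp => by
    have h1 := hlogp p hp
    have h2 : Real.log N / (C * S) ≤ Real.log N := div_le_self hlogpos.le hCS1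
    have h3 := (Real.log_le_log_iff (by linarith [hp1 p hp]) hNpos).mp (h1.trans h2)
    exact_mod_cast h3
  have hΛs : ∑ p ∈ Q, (1:ℝ) / p ≤ Λ := by
    refine le_trans ?_ (sum_inv_primes_le N hN3)
    refine Finset.sum_le_sum_of_subset_of_nonneg (fun p hp => ?_) (fun p _ _ => by positivity)
    rw [Nat.mem_primesLE]
    exact ⟨hQN p hp, (hQ p hp).1⟩
  have hcond : ∀ p ∈ Q, p.Prime ∧ (∀ h ∈ H, h < p) ∧ 2 * H.card ≤ p := fun p hp => by
    have h1 := (hQ p hp).2.1
    unfold zH at h1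
    refine ⟨(hQ p hp).1, fun h hh => ?_, by omega⟩
    have h2 : h ≤ H.sup id := Finset.le_sup (f := id) hh
    omega
  have hMpos : 1 ≤ Mw δ N := by
    unfold Mw
    exact Nat.ceil_pos.mpr (Real.exp_pos _)
  have hmain := brun_window hcond (R := R) (N := N) hQy hΛs hMpos hN3
  refine hmain.trans ?_
  have hΛ0 : 0 ≤ Λ := by linarith
  -- second term
  have t2 : 2 * ((2 * m * Λ) ^ (R + 1) / ((R + 1).factorial : ℝ)) ≤ ε / 2 := by
    have h1 := pow_div_fact_le (2 * m * Λ) (R + 1) (by positivity) (Nat.succ_pos R) (by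
      push_cast
      have : 2 * m * Λ * Real.exp 2 ≤ K * Λ := by
        rw [hK]
        nlinarith
      linarith)
    have h2 : Real.exp (-((R + 1 : ℕ) : ℝ)) ≤ Real.exp (-S) := by
      refine Real.exp_le_exp.mpr ?_
      push_cast
      have : S ≤ K * Λ := by nlinarith
      linarith
    have h3 : Real.exp (-S) = (Real.log N)⁻¹ := by
      rw [Real.exp_neg, hSdef]
      unfold ll
      rw [Real.exp_log hlogpos]
    have h4 : (Real.log (N:ℝ))⁻¹ ≤ ε / 4 := by
      rw [inv_le_comm₀ hlogpos (by positivity)]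
      rw [inv_div]
      exact hlogε
    linarith
  -- third term
  have t3 : (1 + 2 * m * (y:ℝ)) ^ (R + 1) / (Mw δ N : ℝ) ≤ ε / 2 := by
    refine le_trans ?_ hthird
    have hM' : Real.exp (δ * Real.log N) ≤ (Mw δ N : ℝ) := Nat.le_ceil _
    have hex1 : 1 ≤ Real.exp (Real.log N / (C * S)) := Real.one_le_exp (by positivity)
    have hy1 : (y:ℝ) ≤ Real.exp (Real.log N / (C * S)) := Nat.floor_le (by positivity)
    have h1 : 1 + 2 * m * (y:ℝ) ≤ (1 + 2 * m) * Real.exp (Real.log N / (C * S)) := by nlinarith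
    have h2 : (1 + 2 * m * (y:ℝ)) ≤ Real.exp (Real.log (1 + 2 * m) + Real.log N / (C * S)) := by
      rw [Real.exp_add, Real.exp_log (by linarith)]
      exact h1
    have h3 : (1 + 2 * m * (y:ℝ)) ^ (R + 1) ≤
        Real.exp (((R + 1 : ℕ) : ℝ) * (Real.log (1 + 2 * m) + Real.log N / (C * S))) := by
      rw [Real.exp_nat_mul]
      exact pow_le_pow_left₀ (by positivity) h2 _
    have hl0 : 0 ≤ Real.log (1 + 2 * m) := Real.log_nonneg (by linarith)
    have h4 : ((R + 1 : ℕ) : ℝ) * (Real.log (1 + 2 * m) + Real.log N / (C * S)) ≤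
        C₁ * Real.log (1 + 2 * m) * Real.log (Real.log N) + δ / 2 * Real.log N := by
      have h5 : ((R + 1 : ℕ) : ℝ) * (Real.log (1 + 2 * m) + Real.log N / (C * S)) ≤
          C₁ * S * (Real.log (1 + 2 * m) + Real.log N / (C * S)) :=
        mul_le_mul_of_nonneg_right hR2 (by positivity)
      have h6 : C₁ * S * (Real.log (1 + 2 * m) + Real.log N / (C * S)) =
          C₁ * Real.log (1 + 2 * m) * S + C₁ / C * Real.log N := by
        have hS0 : S ≠ 0 := by linarith
        have hC0' : C ≠ 0 := by linarith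
        field_simp
      have h7 : C₁ / C ≤ δ / 2 := by
        rw [div_le_div_iff₀ (by linarith) (by norm_num)]
        rw [hC]
        field_simp
        nlinarith
      have h8 : C₁ / C * Real.log N ≤ δ / 2 * Real.log N := mul_le_mul_of_nonneg_right h7 hlogpos.le
      have h9 : S = Real.log (Real.log N) := rfl
      rw [← h9]
      linarith
    rw [div_le_iff₀ (lt_of_lt_of_le (Real.exp_pos _) hM')]
    calc (1 + 2 * m * (y:ℝ)) ^ (R + 1) ≤ Real.exp (C₁ * Real.log (1 + 2 * m) * Real.log (Real.log N) +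
          δ / 2 * Real.log N) := h3.trans (Real.exp_le_exp.mpr h4)
      _ = Real.exp (C₁ * Real.log (1 + 2 * m) * Real.log (Real.log N) - δ / 2 * Real.log N) *
          Real.exp (δ * Real.log N) := by
          rw [← Real.exp_add]
          congr 1
          ring
      _ ≤ _ := mul_le_mul_of_nonneg_left hM' (Real.exp_pos _).le
  linarith

end Pool.Agent.Lib.P4a7640L
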