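import Mathlib
import Pool.Agent.Lib.P4a7640L.Base
import Pool.Agent.Lib.P4a7640L.MertensB

/-!
# The top window

PROOF of `parity_close`: put `s = ll p`, `e = t' s - t s + 2 j = (t' S - t S + 2 j) - (t' - t) (S - s)`, so
`|e| ≤ κ₁ + κ₂ L`. If `|t s - round (t s)| > |e|` then `t s` and `t s + e` have the same floor
(no integer lies between them: `round` is the nearest integer, `round_le`/`abs_sub_round`), so
`⌊t' s⌋ = ⌊t s + e⌋ - 2 j = ⌊t s⌋ - 2 j` and `(-1)^⌊t' s⌋ = (-1)^⌊t s⌋` in `ℤˣ` (`zpow_sub`, `zpow_mul`),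
contradiction. (Beware of the boundary case: if `t s` is an integer then `|t s - round| = 0 ≤` anything.)

PROOF of `top_sum`: for `p ∈ s` let `i = round (t * ll p)`; then `i` is an integer in
`[t α - 1/2, t (α + L) + 1/2]`, so at most `t L + 2` values. For fixed `i` all `p` in the fibre satisfy
`max α ((i - κ)/t) ≤ ll p ≤ (i + κ)/t`, an interval of length `≤ 2κ/t`; apply `mertens_upper` with left end
`max α ((i-κ)/t) ≥ α` (empty fibre if the interval is empty). Sum over `i`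
(`Finset.sum_fiberwise_of_maps_to`, `Int.card_Icc`).
-/

open Finset

namespace Pool.Agent.Lib.P4a7640L

open Pool.Agent.Lib.P4a7640

namespace Par46

theorem floor_add_eq {u e : ℝ} (h : |e| < |u - round u|) : ⌊u + e⌋ = ⌊u⌋ := by
  rw [abs_sub_round_eq_min, lt_min_iff] at h
  have h1 := Int.floor_add_fract u
  obtain ⟨h2, h3⟩ := h
  have h4 := neg_abs_le e
  have h5 := le_abs_self e
  rw [Int.floor_eq_iff]
  constructor <;> linarith

theorem xt_eq {t t' : ℝ} {j : ℤ} {p : ℕ} (h : ⌊t' * ll p + 2 * j⌋ = ⌊t * ll p⌋) :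
    xt t p = xt t' p := by
  have h1 : ⌊t' * ll p + 2 * j⌋ = ⌊t' * ll p⌋ + 2 * j := by
    have : (t' * ll p + 2 * j : ℝ) = t' * ll p + ((2 * j : ℤ) : ℝ) := by push_cast; ring
    rw [this, Int.floor_add_intCast]
  unfold xt
  rw [← h, h1, zpow_add, zpow_mul]
  norm_num

end Par46

theorem parity_close {t t' S κ₁ κ₂ L : ℝ} {j : ℤ} {p : ℕ} (hκ : |t - t'| ≤ κ₂)
    (hj : |t * S - t' * S - 2 * j| ≤ κ₁) (hp : |S - ll p| ≤ L) (hne : xt t p ≠ xt t' p) :
    |t * ll p - round (t * ll p)| ≤ κ₁ + κ₂ * L := by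
  by_contra hcon
  push Not at hcon
  apply hne
  set e : ℝ := t' * ll p - t * ll p + 2 * j with he
  have h1 : e = -(t * S - t' * S - 2 * j) + (t - t') * (S - ll p) := by rw [he]; ring
  have h2 : |e| ≤ κ₁ + κ₂ * L := by
    rw [h1]
    refine (abs_add_le _ _).trans ?_
    rw [abs_neg, abs_mul]
    exact add_le_add hj (mul_le_mul hκ hp (abs_nonneg _) ((abs_nonneg _).trans hκ))
  have h3 := Par46.floor_add_eq (u := t * ll p) (e := e) (h2.trans_lt hcon)
  apply Par46.xt_eq (j := j)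
  rw [← h3, he]
  congr 1
  ring

theorem top_sum : ∃ C : ℝ, 0 < C ∧ ∀ t κ α L : ℝ, 0 < t → 0 ≤ κ → 0 ≤ α → 0 ≤ L → ∀ s : Finset ℕ,
    (∀ p ∈ s, p.Prime ∧ α ≤ ll p ∧ ll p ≤ α + L ∧ |t * ll p - round (t * ll p)| ≤ κ) →
    ∑ p ∈ s, (1:ℝ) / p ≤ (t * L + 3) * (2 * κ / t + C * Real.exp (-α)) := by
  obtain ⟨C, hC0, hC⟩ := mertens_upper
  refine ⟨C, hC0, fun t κ α L ht hκ hα hL s hs => ?_⟩
  set B : ℝ := 2 * κ / t + C * Real.exp (-α) with hB
  have hB0 : 0 ≤ B := by positivity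
  set a : ℝ := t * α - 1 / 2 with ha
  set b : ℝ := t * (α + L) + 1 / 2 with hb
  set I : Finset ℤ := Icc ⌈a⌉ ⌊b⌋ with hI
  have hmap : ∀ p ∈ s, round (t * ll p) ∈ I := by
    intro p hp
    obtain ⟨h1, h2, h3, h4⟩ := hs p hp
    have h5 := abs_sub_round (t * ll p)
    rw [abs_le] at h5
    rw [hI, Finset.mem_Icc]
    have h6 : t * α ≤ t * ll p := mul_le_mul_of_nonneg_left h2 ht.le
    have h7 : t * ll p ≤ t * (α + L) := mul_le_mul_of_nonneg_left h3 ht.le
    constructor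
    · rw [Int.ceil_le, ha]
      linarith
    · rw [Int.le_floor, hb]
      linarith
  have hcard : (I.card : ℝ) ≤ t * L + 3 := by
    rw [hI, Int.card_Icc]
    have h1 : a ≤ ⌈a⌉ := Int.le_ceil a
    have h2 : (⌊b⌋ : ℝ) ≤ b := Int.floor_le b
    have hab : b - a = t * L + 1 := by rw [ha, hb]; ring
    have htL : 0 ≤ t * L := mul_nonneg ht.le hL
    rcases le_total 0 (⌊b⌋ + 1 - ⌈a⌉) with h3 | h3
    · have h4 : (((⌊b⌋ + 1 - ⌈a⌉).toNat : ℤ) : ℝ) = ((⌊b⌋ + 1 - ⌈a⌉ : ℤ) : ℝ) := by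
        rw [Int.toNat_of_nonneg h3]
      rw [Int.cast_natCast] at h4
      rw [h4]
      push_cast
      linarith
    · rw [Int.toNat_of_nonpos h3]
      push_cast
      linarith
  have hfib : ∀ i ∈ I, ∑ p ∈ s.filter (fun p : ℕ => round (t * ll p) = i), (1:ℝ) / p ≤ B := by
    intro i _
    rcases (s.filter (fun p : ℕ => round (t * ll p) = i)).eq_empty_or_nonempty with h0 | ⟨q, hq⟩
    · rw [h0, Finset.sum_empty]
      exact hB0
    set a' : ℝ := max α ((i - κ) / t) with ha'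
    set b' : ℝ := (i + κ) / t with hb'
    have hin : ∀ p ∈ s.filter (fun p : ℕ => round (t * ll p) = i), p.Prime ∧ a' ≤ ll p ∧ ll p ≤ b' := by
      intro p hp
      rw [Finset.mem_filter] at hp
      obtain ⟨hps, hpi⟩ := hp
      obtain ⟨h1, h2, h3, h4⟩ := hs p hps
      rw [hpi, abs_le] at h4
      refine ⟨h1, max_le h2 ?_, ?_⟩
      · rw [div_le_iff₀ ht]
        nlinarith [h4.1]
      · rw [hb', le_div_iff₀ ht]
        nlinarith [h4.2]
    have hab : a' ≤ b' := (hin q hq).2.1.trans (hin q hq).2.2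
    have h1 := hC a' b' (hα.trans (le_max_left _ _)) hab _ hin
    refine h1.trans ?_
    have h2 : (i - κ) / t ≤ a' := le_max_right _ _
    have h3 : b' - (i - κ) / t = 2 * κ / t := by rw [hb']; ring
    have h4 : Real.exp (-a') ≤ Real.exp (-α) :=
      Real.exp_le_exp.2 (neg_le_neg (le_max_left _ _))
    have h5 : C * Real.exp (-a') ≤ C * Real.exp (-α) := mul_le_mul_of_nonneg_left h4 hC0.le
    rw [hB]
    linarith
  rw [← Finset.sum_fiberwise_of_maps_to hmap]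
  calc ∑ i ∈ I, ∑ p ∈ s.filter (fun p : ℕ => round (t * ll p) = i), (1:ℝ) / p ≤ ∑ _i ∈ I, B :=
        Finset.sum_le_sum hfib
    _ = I.card * B := by rw [Finset.sum_const, nsmul_eq_mul]
    _ ≤ (t * L + 3) * B := mul_le_mul_of_nonneg_right hcard hB0

end Pool.Agent.Lib.P4a7640L
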