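import Mathlib
import Pool.Agent.Lib.P4a7640L.Base
import Pool.Agent.Lib.P4a7640L.MertensB

/-!
# Separation: distinct parameters give distant functions

PROOF. `τ = t' - t`, `z ≥ 0` w.l.o.g. (it is assumed), `Y = min X (1/τ)`, `i₀ = ⌈b z⌉ + 1`,
`I = {i : ℕ | i₀ ≤ i ∧ i ≤ t Y}` (a `Finset.Icc i₀ ⌊t Y⌋₊`). For `i ∈ I` and a prime `p` with
`i/t' < s := ll p < i/t`: `z < i₀/b ≤ i/t' < s < i/t ≤ Y ≤ X`; `t s < i`, `t s = t' s - τ s > i - 1` (since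
`τ s < τ Y ≤ 1`), so `⌊t s⌋ = i - 1`; `t' s > i`, `t' s = t s + τ s < i + 1`, so `⌊t' s⌋ = i`. Hence
`xt t p ≠ xt t' p` and `p ∈ s`. The intervals `(i/t', i/t)` are disjoint for different `i ∈ I`:
`i/t ≤ (i+1)/t'` iff `i τ ≤ t`, true as `i ≤ t Y ≤ t/τ`. Apply `mertens_lower` to each
(`J_i = s.filter (i/t' < ll p < i/t)`; pairwise disjoint subsets of `s`):
`∑_{p∈s} 1/p ≥ ∑_{i∈I} (i/t - i/t' - C exp (-i/t')) ≥ (τ/b²) ∑_{i∈I} i - C ∑_i exp (-i/b)`,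
`∑_{i ∈ I} i ≥ (a Y)²/8 - i₀²` if `a Y ≥ 2`, and `∑_i exp(-i/b) ≤ 1/(1 - exp(-1/b))`.
`τ Y² = τ X² ≥ K` if `Y = X`, and `τ Y² = 1/τ ≥ 1/τ₀` if `Y = 1/τ`. So for `τ₀` small and `K` large
(also `τ₀ ≤ 1`, `K ≥ 4 τ₀ /a² ...` so that `a Y ≥ 2`: `X² ≥ K/τ₀`), the sum is `≥ ρ`.
-/

open Finset

namespace Pool.Agent.Lib.P4a7640L

open Pool.Agent.Lib.P4a7640

namespace SepAux

lemma sum_Icc_ge (i₀ M : ℕ) : (M : ℝ) ^ 2 / 2 - (i₀ : ℝ) ^ 2 ≤ ∑ i ∈ Icc i₀ M, (i : ℝ) := by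
  have h1 : ∑ i ∈ range (M + 1), (i : ℝ) ≤ ∑ i ∈ range i₀, (i : ℝ) + ∑ i ∈ Icc i₀ M, (i : ℝ) := by
    have hsub : range (M + 1) ⊆ range i₀ ∪ Icc i₀ M := by
      intro i hi
      rw [mem_range] at hi
      rw [mem_union, mem_range, mem_Icc]
      omega
    calc ∑ i ∈ range (M + 1), (i : ℝ) ≤ ∑ i ∈ range i₀ ∪ Icc i₀ M, (i : ℝ) :=
          Finset.sum_le_sum_of_subset_of_nonneg hsub fun i _ _ => Nat.cast_nonneg i
      _ ≤ _ := by
          rw [Finset.sum_union]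
          rw [Finset.disjoint_left]
          intro i h1 h2
          rw [mem_range] at h1
          rw [mem_Icc] at h2
          omega
  have h2 : ∀ m : ℕ, (∑ i ∈ range m, (i : ℝ)) * 2 = m * (m - 1 : ℝ) := by
    intro m
    induction m with
    | zero => simp
    | succ m ih =>
      rw [Finset.sum_range_succ, add_mul, ih]
      push_cast
      ring
  have h3 := h2 (M + 1)
  have h4 := h2 i₀
  push_cast at h3
  have h5 : (0 : ℝ) ≤ i₀ := Nat.cast_nonneg _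
  have h6 : (0 : ℝ) ≤ M := Nat.cast_nonneg _
  nlinarith

lemma sum_exp_le {b : ℝ} (hb : 0 < b) (s : Finset ℕ) :
    ∑ i ∈ s, Real.exp (-((i : ℝ) / b)) ≤ (1 - Real.exp (-(1 / b)))⁻¹ := by
  have hr0 : 0 ≤ Real.exp (-(1 / b)) := (Real.exp_pos _).le
  have hr1 : Real.exp (-(1 / b)) < 1 := by
    rw [Real.exp_lt_one_iff]
    have : 0 < 1 / b := by positivity
    linarith
  have e : ∀ i : ℕ, Real.exp (-((i : ℝ) / b)) = Real.exp (-(1 / b)) ^ i := by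
    intro i
    rw [← Real.exp_nat_mul]
    congr 1
    ring
  simp only [e]
  exact (summable_geometric_of_lt_one hr0 hr1).sum_le_tsum s
    (fun i _ => pow_nonneg hr0 i) |>.trans (tsum_geometric_of_lt_one hr0 hr1).le

lemma xt_ne {t t' : ℝ} {p : ℕ} {i : ℕ} (h1 : t * ll p < i) (h2 : (i : ℝ) < t' * ll p)
    (h3 : (i : ℝ) - 1 < t * ll p) (h4 : t' * ll p < i + 1) : xt t p ≠ xt t' p := by
  have e1 : ⌊t * ll p⌋ = (i : ℤ) - 1 := by
    rw [Int.floor_eq_iff]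
    push_cast
    constructor <;> linarith
  have e2 : ⌊t' * ll p⌋ = (i : ℤ) := by
    rw [Int.floor_eq_iff]
    push_cast
    constructor <;> linarith
  unfold xt
  rw [e1, e2]
  intro h
  have h5 : ((-1 : ℤˣ)) ^ ((i : ℤ) - 1) * (-1) = (-1) ^ (i : ℤ) := by
    conv_rhs => rw [show (i : ℤ) = ((i : ℤ) - 1) + 1 by ring, zpow_add, zpow_one]
  rw [← h5] at h
  have h6 : (1 : ℤˣ) = -1 := by
    have := mul_left_cancel (a := (-1 : ℤˣ) ^ ((i : ℤ) - 1)) (b := 1) (c := -1) (by rw [mul_one]; exact h)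
    exact this
  exact absurd h6 (by decide)

end SepAux

open SepAux

theorem separation {a b : ℝ} (ha : 0 < a) (hab : a ≤ b) (ρ : ℝ) {z : ℝ} (hz : 0 ≤ z) :
    ∃ K : ℝ, 0 < K ∧ ∃ τ₀ : ℝ, 0 < τ₀ ∧ ∀ X t t' : ℝ, 0 < X → a ≤ t → t < t' → t' ≤ b →
      t' - t ≤ τ₀ → K ≤ (t' - t) * X ^ 2 → ∀ s : Finset ℕ,
      (∀ p : ℕ, p.Prime → z < ll p → ll p ≤ X → xt t p ≠ xt t' p → p ∈ s) →
      ρ ≤ ∑ p ∈ s, (1:ℝ) / p := by
  obtain ⟨C, hC0, hC⟩ := mertens_lower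
  have hb : 0 < b := ha.trans_le hab
  set G := (1 - Real.exp (-(1 / b)))⁻¹ with hG
  have hG0 : 0 ≤ G := (Finset.sum_nonneg fun i _ => (Real.exp_pos _).le).trans
    (sum_exp_le hb ∅)
  set i₀ := ⌈b * z⌉₊ + 1 with hi₀
  have hi₀' : b * z < i₀ := by
    rw [hi₀]; push_cast
    linarith [Nat.le_ceil (b * z)]
  set K := 8 * b ^ 2 / a ^ 2 * (|ρ| + (i₀ : ℝ) ^ 2 / b ^ 2 + C * G) + 4 / a ^ 2 + 1 with hK
  have hK1 : 1 ≤ K := by
    have h1 : 0 ≤ 8 * b ^ 2 / a ^ 2 * (|ρ| + (i₀ : ℝ) ^ 2 / b ^ 2 + C * G) := by positivity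
    have h2 : 0 ≤ 4 / a ^ 2 := by positivity
    linarith
  have hK0 : 0 < K := by linarith
  refine ⟨K, hK0, 1 / K, by positivity, ?_⟩
  intro X t t' hX hat htt' ht'b hτ hKX s hs
  have ht0 : 0 < t := ha.trans_le hat
  have ht'0 : 0 < t' := ht0.trans htt'
  set τ := t' - t with hτdef
  have hτ0 : 0 < τ := by rw [hτdef]; linarith
  have hτ1 : τ ≤ 1 := hτ.trans (by rw [div_le_one hK0]; exact hK1)
  set Y := min X (1 / τ) with hY
  have hY0 : 0 < Y := lt_min hX (by positivity)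
  have hYX : Y ≤ X := min_le_left _ _
  have hYτ : τ * Y ≤ 1 := by
    calc τ * Y ≤ τ * (1 / τ) := mul_le_mul_of_nonneg_left (min_le_right _ _) hτ0.le
      _ = 1 := by field_simp
  have hKY : K ≤ τ * Y ^ 2 := by
    rcases min_choice X (1 / τ) with h | h
    · rw [hY, h]; exact hKX
    · rw [hY, h]
      have h1 : τ * (1 / τ) ^ 2 = 1 / τ := by field_simp
      rw [h1, le_div_iff₀ hτ0]
      calc K * τ ≤ K * (1 / K) := mul_le_mul_of_nonneg_left hτ hK0.le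
        _ = 1 := by field_simp
  have haY : 2 ≤ a * Y := by
    have h1 : K ≤ Y ^ 2 := hKY.trans (by
      calc τ * Y ^ 2 ≤ 1 * Y ^ 2 := mul_le_mul_of_nonneg_right hτ1 (by positivity)
        _ = Y ^ 2 := one_mul _)
    have h2 : 4 / a ^ 2 ≤ Y ^ 2 := by
      have h3 : 0 ≤ 8 * b ^ 2 / a ^ 2 * (|ρ| + (i₀ : ℝ) ^ 2 / b ^ 2 + C * G) := by positivity
      linarith
    rw [div_le_iff₀ (by positivity)] at h2
    have h3 : 2 ^ 2 ≤ (a * Y) ^ 2 := by nlinarith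
    exact le_of_sq_le_sq h3 (by positivity)
  set M := ⌊t * Y⌋₊ with hM
  have hM1 : a * Y / 2 ≤ M := by
    have h1 := Nat.lt_floor_add_one (t * Y)
    rw [← hM] at h1
    have h2 : a * Y ≤ t * Y := mul_le_mul_of_nonneg_right hat hY0.le
    linarith
  have hMY : ∀ i ∈ Icc i₀ M, (i : ℝ) ≤ t * Y := by
    intro i hi
    rw [mem_Icc] at hi
    calc (i : ℝ) ≤ M := by exact_mod_cast hi.2
      _ ≤ t * Y := Nat.floor_le (by positivity)
  -- the pieces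
  let J : ℕ → Finset ℕ := fun i => s.filter (fun p => (i : ℝ) / t' < ll p ∧ ll p < (i : ℝ) / t)
  have hpiece : ∀ i ∈ Icc i₀ M,
      ((i : ℝ) / t - (i : ℝ) / t') - C * Real.exp (-((i : ℝ) / t')) ≤ ∑ p ∈ J i, (1:ℝ) / p := by
    intro i hi
    have hi0 : (0 : ℝ) ≤ i := Nat.cast_nonneg i
    have hiY := hMY i hi
    refine hC _ _ (by positivity) (by gcongr) (J i) ?_
    intro p hp h1 h2
    rw [mem_filter]
    refine ⟨hs p hp ?_ ?_ ?_, h1, h2⟩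
    · refine lt_of_lt_of_le ?_ h1.le
      rw [lt_div_iff₀ ht'0]
      have h3 : (i₀ : ℝ) ≤ i := by exact_mod_cast (mem_Icc.1 hi).1
      have h4 : z * t' ≤ b * z := by
        rw [mul_comm]
        exact mul_le_mul_of_nonneg_right ht'b hz
      linarith
    · refine (h2.le.trans ?_).trans hYX
      rw [div_le_iff₀ ht0]
      linarith
    · rw [div_lt_iff₀ ht'0] at h1
      rw [lt_div_iff₀ ht0] at h2
      have hll : ll p ≤ Y := by
        have : ll p * t ≤ Y * t := by linarith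
        exact le_of_mul_le_mul_right this ht0
      have h5 : τ * ll p < 1 := by
        have h6 : ll p < Y := by
          have : ll p * t < Y * t := by linarith
          exact lt_of_mul_lt_mul_right this ht0.le
        calc τ * ll p < τ * Y := mul_lt_mul_of_pos_left h6 hτ0
          _ ≤ 1 := hYτ
      have h7 : t' * ll p = t * ll p + τ * ll p := by rw [hτdef]; ring
      apply xt_ne (i := i)
      · linarith
      · linarith
      · linarith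
      · linarith
  have hdisj : (Set.PairwiseDisjoint (↑(Icc i₀ M) : Set ℕ) J) := by
    have key : ∀ i ∈ Icc i₀ M, ∀ j ∈ Icc i₀ M, i < j → Disjoint (J i) (J j) := by
      intro i hi j hj hij
      rw [Finset.disjoint_left]
      intro p hp1 hp2
      rw [mem_filter] at hp1 hp2
      have h1 := hp1.2.2
      have h2 := hp2.2.1
      rw [lt_div_iff₀ ht0] at h1
      rw [div_lt_iff₀ ht'0] at h2
      have h3 : (i : ℝ) + 1 ≤ j := by exact_mod_cast hij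
      have h4 := hMY i hi
      have h5 : (i : ℝ) * τ ≤ t := by
        calc (i : ℝ) * τ ≤ t * Y * τ := mul_le_mul_of_nonneg_right h4 hτ0.le
          _ = t * (τ * Y) := by ring
          _ ≤ t * 1 := mul_le_mul_of_nonneg_left hYτ ht0.le
          _ = t := mul_one _
      -- i / t ≤ (i + 1) / t'
      have h6 : (i : ℝ) * t' ≤ (i + 1) * t := by
        have : t' = t + τ := by rw [hτdef]; ring
        rw [this]; linarith
      have hll0 : 0 < ll p := by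
        have : (0 : ℝ) ≤ j := Nat.cast_nonneg j
        by_contra hcon
        have h8 : ll p * t' ≤ 0 := mul_nonpos_of_nonpos_of_nonneg (not_lt.1 hcon) ht'0.le
        linarith
      nlinarith [mul_lt_mul_of_pos_right h1 ht'0, mul_lt_mul_of_pos_right h2 ht0]
    intro i hi j hj hne
    rcases lt_or_gt_of_ne hne with h | h
    · exact key i hi j hj h
    · exact (key j hj i hi h).symm
  have htotal : ∑ i ∈ Icc i₀ M, (((i : ℝ) / t - (i : ℝ) / t') - C * Real.exp (-((i : ℝ) / t')))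
      ≤ ∑ p ∈ s, (1:ℝ) / p := by
    calc _ ≤ ∑ i ∈ Icc i₀ M, ∑ p ∈ J i, (1:ℝ) / p := Finset.sum_le_sum hpiece
      _ = ∑ p ∈ (Icc i₀ M).biUnion J, (1:ℝ) / p := (Finset.sum_biUnion hdisj).symm
      _ ≤ _ := by
        apply Finset.sum_le_sum_of_subset_of_nonneg
        · intro p hp
          rw [mem_biUnion] at hp
          obtain ⟨i, _, hi⟩ := hp
          exact (mem_filter.1 hi).1
        · intro p _ _; positivity
  have hlow : (τ / b ^ 2) * ∑ i ∈ Icc i₀ M, (i : ℝ) - C * G ≤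
      ∑ i ∈ Icc i₀ M, (((i : ℝ) / t - (i : ℝ) / t') - C * Real.exp (-((i : ℝ) / t'))) := by
    rw [Finset.sum_sub_distrib, Finset.mul_sum]
    have h1 : ∑ i ∈ Icc i₀ M, τ / b ^ 2 * (i : ℝ) ≤ ∑ i ∈ Icc i₀ M, ((i : ℝ) / t - (i : ℝ) / t') := by
      apply Finset.sum_le_sum
      intro i _
      have hi0 : (0 : ℝ) ≤ i := Nat.cast_nonneg i
      have e : (i : ℝ) / t - (i : ℝ) / t' = τ / (t * t') * i := by
        rw [hτdef]; field_simp
      rw [e]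
      apply mul_le_mul_of_nonneg_right _ hi0
      have h2 : t * t' ≤ b ^ 2 := by
        rw [sq]
        exact mul_le_mul (by linarith) ht'b ht'0.le hb.le
      gcongr
    have h2 : ∑ i ∈ Icc i₀ M, Real.exp (-((i : ℝ) / t')) ≤ G := by
      refine le_trans (Finset.sum_le_sum fun i _ => ?_) (sum_exp_le hb (Icc i₀ M))
      apply Real.exp_le_exp.2
      rw [neg_le_neg_iff]
      have hi0 : (0 : ℝ) ≤ i := Nat.cast_nonneg i
      gcongr
    have h3 : ∑ i ∈ Icc i₀ M, C * Real.exp (-((i : ℝ) / t')) ≤ C * G := by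
      rw [← Finset.mul_sum]
      exact mul_le_mul_of_nonneg_left h2 hC0.le
    linarith
  have hsum := sum_Icc_ge i₀ M
  have hM2 : (a * Y) ^ 2 / 8 ≤ (M : ℝ) ^ 2 / 2 := by
    have : (a * Y / 2) ^ 2 ≤ (M : ℝ) ^ 2 := pow_le_pow_left₀ (by positivity) hM1 2
    nlinarith
  have hfin : ρ ≤ (τ / b ^ 2) * ∑ i ∈ Icc i₀ M, (i : ℝ) - C * G := by
    have h1 : (τ / b ^ 2) * ((a * Y) ^ 2 / 8 - (i₀ : ℝ) ^ 2) ≤
        (τ / b ^ 2) * ∑ i ∈ Icc i₀ M, (i : ℝ) :=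
      mul_le_mul_of_nonneg_left (by linarith) (by positivity)
    have h2 : (τ / b ^ 2) * ((a * Y) ^ 2 / 8 - (i₀ : ℝ) ^ 2)
        = a ^ 2 / (8 * b ^ 2) * (τ * Y ^ 2) - τ * ((i₀ : ℝ) ^ 2 / b ^ 2) := by
      field_simp
    have h3 : a ^ 2 / (8 * b ^ 2) * K ≤ a ^ 2 / (8 * b ^ 2) * (τ * Y ^ 2) :=
      mul_le_mul_of_nonneg_left hKY (by positivity)
    have h4 : τ * ((i₀ : ℝ) ^ 2 / b ^ 2) ≤ 1 * ((i₀ : ℝ) ^ 2 / b ^ 2) :=
      mul_le_mul_of_nonneg_right hτ1 (by positivity)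
    have h5 : |ρ| + (i₀ : ℝ) ^ 2 / b ^ 2 + C * G ≤ a ^ 2 / (8 * b ^ 2) * K := by
      have h6 : a ^ 2 / (8 * b ^ 2) * (8 * b ^ 2 / a ^ 2 * (|ρ| + (i₀ : ℝ) ^ 2 / b ^ 2 + C * G))
          = |ρ| + (i₀ : ℝ) ^ 2 / b ^ 2 + C * G := by
        field_simp
      rw [hK]
      have h7 : 0 ≤ a ^ 2 / (8 * b ^ 2) * (4 / a ^ 2 + 1) := by positivity
      have h8 : a ^ 2 / (8 * b ^ 2) * (8 * b ^ 2 / a ^ 2 * (|ρ| + (i₀ : ℝ) ^ 2 / b ^ 2 + C * G)
          + 4 / a ^ 2 + 1) = a ^ 2 / (8 * b ^ 2) * (8 * b ^ 2 / a ^ 2 *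
          (|ρ| + (i₀ : ℝ) ^ 2 / b ^ 2 + C * G)) + a ^ 2 / (8 * b ^ 2) * (4 / a ^ 2 + 1) := by ring
      rw [h8, h6]
      linarith
    have h9 := le_abs_self ρ
    linarith
  linarith

end Pool.Agent.Lib.P4a7640L
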