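import Mathlib
import Pool.Agent.Lib.P4a7640L.Param
import Pool.Agent.Lib.P4a7640L.Parity
import Pool.Agent.Lib.P4a7640L.Sep

/-!
# Near orthogonality of twists in the same class
-/

open Finset Filter Topology

namespace Pool.Agent.Lib.P4a7640L

open Pool.Agent.Lib.P4a7640

lemma abs_sQ (Q : Finset ℕ) (n : ℕ) : |sQ Q n| = 1 := by
  unfold sQ
  rw [Finset.abs_prod]
  refine Finset.prod_eq_one fun p _ => ?_
  split_ifs <;> simp

lemma sQ_union {Q T : Finset ℕ} (h : Disjoint Q T) (n : ℕ) : sQ (Q ∪ T) n = sQ Q n * sQ T n := by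
  unfold sQ
  rw [Finset.prod_union h]

/-- the differing primes -/
noncomputable def Df (x x' : ℕ → ℤˣ) (B : ℕ) : Finset ℕ := by
  classical exact (range (B + 1)).filter (fun p => p.Prime ∧ x p ≠ x' p)

lemma mem_Df {x x' : ℕ → ℤˣ} {B p : ℕ} : p ∈ Df x x' B ↔ p ≤ B ∧ p.Prime ∧ x p ≠ x' p := by
  classical
  unfold Df
  rw [mem_filter, mem_range, Nat.lt_succ_iff]

lemma sg_rs_mul {x x' : ℕ → ℤˣ} {B n : ℕ} (hn : 0 < n) (hnB : n ≤ B) :
    sg (rs x n) * sg (rs x' n) = sQ (Df x x' B) n := by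
  classical
  unfold rs sQ
  rw [sg_prod, sg_prod, ← Finset.prod_mul_distrib]
  have h1 : ∀ p ∈ n.primeFactors, sg (x p) * sg (x' p) = if x p ≠ x' p then (-1:ℝ) else 1 := by
    intro p _
    rw [← sg_mul]
    by_cases h : x p = x' p
    · rw [if_neg (not_not.mpr h), h, Int.units_mul_self, sg_one]
    · rw [if_pos h]
      rcases Int.units_eq_one_or (x p) with h1 | h1 <;> rcases Int.units_eq_one_or (x' p) with h2 | h2 <;>
        rw [h1, h2] at h ⊢ <;> simp [sg] at h ⊢
  rw [Finset.prod_congr rfl h1, ← Finset.prod_filter, ← Finset.prod_filter]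
  refine Finset.prod_congr ?_ fun _ _ => rfl
  ext p
  rw [mem_filter, mem_filter, mem_Df, Nat.mem_primeFactors]
  constructor
  · rintro ⟨⟨hp, hd, _⟩, hne⟩
    exact ⟨⟨(Nat.le_of_dvd hn hd).trans hnB, hp, hne⟩, hd⟩
  · rintro ⟨⟨_, hp, hne⟩, hd⟩
    exact ⟨⟨hp, hd, hn.ne'⟩, hne⟩

lemma prod_sQ_sub {H Q T : Finset ℕ} (hd : Disjoint Q T) (n : ℕ) :
    |∏ h ∈ H, sQ (Q ∪ T) (n + h) - ∏ h ∈ H, sQ Q (n + h)| ≤
      ∑ h ∈ H, ∑ p ∈ T, 2 * (if p ∣ n + h then (1:ℝ) else 0) := by
  have h1 : ∏ h ∈ H, sQ (Q ∪ T) (n + h) = (∏ h ∈ H, sQ Q (n + h)) * ∏ h ∈ H, sQ T (n + h) := by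
    rw [← Finset.prod_mul_distrib]
    exact Finset.prod_congr rfl fun h _ => sQ_union hd _
  have h2 : |∏ h ∈ H, sQ Q (n + h)| = 1 := by
    rw [Finset.abs_prod]
    exact Finset.prod_eq_one fun h _ => abs_sQ _ _
  have h3 : |∏ h ∈ H, sQ T (n + h)| = 1 := by
    rw [Finset.abs_prod]
    exact Finset.prod_eq_one fun h _ => abs_sQ _ _
  rw [h1, show (∏ h ∈ H, sQ Q (n + h)) * (∏ h ∈ H, sQ T (n + h)) - ∏ h ∈ H, sQ Q (n + h) =
    (∏ h ∈ H, sQ Q (n + h)) * ((∏ h ∈ H, sQ T (n + h)) - 1) by ring, abs_mul, h2, one_mul]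
  by_cases hex : ∃ h ∈ H, ∃ p ∈ T, p ∣ n + h
  · obtain ⟨h, hh, p, hp, hdv⟩ := hex
    calc |∏ h ∈ H, sQ T (n + h) - 1| ≤ |∏ h ∈ H, sQ T (n + h)| + |(1:ℝ)| := abs_sub _ _
      _ = 2 * (if p ∣ n + h then (1:ℝ) else 0) := by rw [h3, abs_one, if_pos hdv]; norm_num
      _ ≤ ∑ p ∈ T, 2 * (if p ∣ n + h then (1:ℝ) else 0) :=
          Finset.single_le_sum (f := fun p => 2 * (if p ∣ n + h then (1:ℝ) else 0))
            (fun i _ => by positivity) hp
      _ ≤ _ := Finset.single_le_sum (f := fun h => ∑ p ∈ T, 2 * (if p ∣ n + h then (1:ℝ) else 0))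
            (fun i _ => Finset.sum_nonneg fun _ _ => by positivity) hh
  · push Not at hex
    have h4 : ∏ h ∈ H, sQ T (n + h) = 1 := by
      refine Finset.prod_eq_one fun h hh => ?_
      unfold sQ
      exact Finset.prod_eq_one fun p hp => if_neg (hex h hh p hp)
    rw [h4, sub_self, abs_zero]
    exact Finset.sum_nonneg fun _ _ => Finset.sum_nonneg fun _ _ => by positivity

lemma WA_sub_le {M N : ℕ} (hN : 3 ≤ N) (u v w : ℕ → ℝ) (h : ∀ n ∈ Ioc M N, |u n - v n| ≤ w n) :
    |WA M N u| ≤ |WA M N v| + WA M N w := by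
  have hl : 0 < Real.log N := Real.log_pos (by
    have : (3:ℝ) ≤ N := by exact_mod_cast hN
    linarith)
  have h1 : WA M N u = WA M N v + WA M N (fun n => u n - v n) := by
    unfold WA
    rw [← add_div, ← Finset.sum_add_distrib]
    congr 1
    refine Finset.sum_congr rfl fun n _ => ?_
    ring
  have h2 : |WA M N (fun n => u n - v n)| ≤ WA M N w := by
    unfold WA
    rw [abs_div, abs_of_pos hl]
    refine div_le_div_of_nonneg_right ?_ hl.le
    refine (Finset.abs_sum_le_sum_abs _ _).trans (Finset.sum_le_sum fun n hn => ?_)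
    rw [abs_div, abs_of_nonneg (Nat.cast_nonneg (α := ℝ) n)]
    exact div_le_div_of_nonneg_right (h n hn) (Nat.cast_nonneg n)
  rw [h1]
  exact (abs_add_le _ _).trans (by linarith)

lemma WA_ind_le {H T : Finset ℕ} {M N hm : ℕ} (hN : 3 ≤ N) (hH : ∀ h ∈ H, h ≤ hm)
    (hT : ∀ p ∈ T, p.Prime ∧ 2 * hm ≤ p) (hlog : CH hm ≤ Real.log N) :
    WA M N (fun n => ∑ h ∈ H, ∑ p ∈ T, 2 * (if p ∣ n + h then (1:ℝ) else 0)) ≤
      4 * H.card * ∑ p ∈ T, (1:ℝ) / p := by
  have hl : 0 < Real.log N := Real.log_pos (by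
    have : (3:ℝ) ≤ N := by exact_mod_cast hN
    linarith)
  have h1 : WA M N (fun n => ∑ h ∈ H, ∑ p ∈ T, 2 * (if p ∣ n + h then (1:ℝ) else 0)) ≤
      (∑ n ∈ Icc 1 N, (∑ h ∈ H, ∑ p ∈ T, 2 * (if p ∣ n + h then (1:ℝ) else 0)) / n) / Real.log N := by
    unfold WA
    refine div_le_div_of_nonneg_right ?_ hl.le
    refine Finset.sum_le_sum_of_subset_of_nonneg ?_ fun n _ _ => ?_
    · intro n hn
      rw [mem_Ioc] at hn
      rw [mem_Icc]
      omega
    · exact div_nonneg (Finset.sum_nonneg fun _ _ => Finset.sum_nonneg fun _ _ => by positivity)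
        (Nat.cast_nonneg n)
  refine h1.trans ?_
  have h2 : ∑ n ∈ Icc 1 N, (∑ h ∈ H, ∑ p ∈ T, 2 * (if p ∣ n + h then (1:ℝ) else 0)) / n =
      ∑ h ∈ H, ∑ p ∈ T, 2 * UU N h p := by
    unfold UU
    simp only [Finset.sum_div]
    rw [Finset.sum_comm]
    refine Finset.sum_congr rfl fun h _ => ?_
    rw [Finset.sum_comm]
    refine Finset.sum_congr rfl fun p _ => ?_
    rw [Finset.sum_filter, Finset.mul_sum]
    refine Finset.sum_congr rfl fun n _ => ?_
    split_ifs <;> ring
  rw [h2, div_le_iff₀ hl]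
  calc ∑ h ∈ H, ∑ p ∈ T, 2 * UU N h p ≤ ∑ h ∈ H, ∑ p ∈ T, 4 * Real.log N * (1 / (p:ℝ)) := by
        refine Finset.sum_le_sum fun h hh => Finset.sum_le_sum fun p hp => ?_
        have h3 := UU_le (N := N) (h := h) (d := p) (by omega) (hT p hp).1.pos (by
          have := hH h hh
          have := (hT p hp).2
          omega)
        have h4 := CH_mono (hH h hh)
        have h5 : UU N h p ≤ 1 / p * (2 * Real.log N) :=
          h3.trans (mul_le_mul_of_nonneg_left (by linarith) (by positivity))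
        calc 2 * UU N h p ≤ 2 * (1 / p * (2 * Real.log N)) := by linarith
          _ = _ := by ring
    _ = 4 * H.card * (∑ p ∈ T, (1:ℝ) / p) * Real.log N := by
        rw [Finset.sum_const, nsmul_eq_mul, ← Finset.mul_sum]
        ring

lemma tendsto_ll : Tendsto (fun N : ℕ => ll N) atTop atTop := by
  unfold ll
  exact Real.tendsto_log_atTop.comp (Real.tendsto_log_atTop.comp tendsto_natCast_atTop_atTop)

lemma ll_mono {x y : ℕ} (hx : 2 ≤ x) (hxy : x ≤ y) : ll x ≤ ll y := by
  unfold ll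
  have h2 : (2:ℝ) ≤ x := by exact_mod_cast hx
  have h0 : 0 < Real.log x := Real.log_pos (by linarith)
  exact Real.log_le_log h0 (Real.log_le_log (by linarith) (by exact_mod_cast hxy))

theorem inner_small {H : Finset ℕ} (hne : H.Nonempty) {a b δ ε : ℝ} (ha : 0 < a) (hab : a ≤ b)
    (hδ : 0 < δ) (hε : 0 < ε) :
    ∃ z : ℕ, ∃ K : ℝ, 0 < K ∧ ∃ c : ℝ, 0 < c ∧ ∀ᶠ N : ℕ in atTop, ∀ t t' : ℝ, a ≤ t → t < t' → t' ≤ b →
      (∀ p ≤ z, xt t p = xt t' p) → |t - t'| ≤ c / (Real.log (ll N)) ^ 2 →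
      (∃ j : ℤ, |t * ll N - t' * ll N - 2 * j| ≤ c / Real.log (ll N)) →
      K / (ll N) ^ 2 ≤ |t - t'| →
      |WA (Mw δ N) N (fun n => prodSeq (rs (xt t)) H n * prodSeq (rs (xt t')) H n)| ≤ ε := by
  classical
  set m : ℝ := (H.card : ℝ) with hm
  have hm1 : 1 ≤ m := by
    rw [hm]
    exact_mod_cast Finset.card_pos.mpr hne
  have hb : 0 < b := ha.trans_le hab
  set hmx := H.sup id with hhmx
  have hHle : ∀ h ∈ H, h ≤ hmx := fun h hh => Finset.le_sup (f := id) hh
  obtain ⟨Cb, hCb1, hbrun⟩ := brun_asym H hδ (show 0 < ε / 4 by positivity)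
  set z : ℕ := zH H + 3 with hz
  have hz3 : (3:ℝ) ≤ z := by
    rw [hz]
    push_cast
    have : (0:ℝ) ≤ zH H := Nat.cast_nonneg _
    linarith
  have hllz : 0 ≤ ll z := by
    unfold ll
    apply Real.log_nonneg
    rw [← Real.log_exp 1]
    apply Real.log_le_log (Real.exp_pos 1)
    have := Real.exp_one_lt_d9
    linarith
  set ρ : ℝ := |Real.log (4 / ε)| with hρ
  obtain ⟨K0, hK0, τ0, hτ0, hsep⟩ := separation ha hab ρ hllz
  obtain ⟨Ct, hCt, htop⟩ := top_sum
  set c : ℝ := a * ε / (96 * m * (2 * b + 1)) with hc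
  have hc0 : 0 < c := by positivity
  refine ⟨z, 4 * K0, by positivity, c, hc0, ?_⟩
  -- eventual conditions
  have hS := tendsto_ll
  have hlS : Tendsto (fun N : ℕ => Real.log (ll N)) atTop atTop := Real.tendsto_log_atTop.comp hS
  have hlogN : Tendsto (fun N : ℕ => Real.log N) atTop atTop :=
    Real.tendsto_log_atTop.comp tendsto_natCast_atTop_atTop
  have e1 : ∀ᶠ N : ℕ in atTop, CH hmx ≤ Real.log N := hlogN.eventually_ge_atTop _
  have e2 : ∀ᶠ N : ℕ in atTop, max 3 (Real.log Cb + 1) ≤ Real.log (ll N) :=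
    hlS.eventually_ge_atTop _
  have e3 : ∀ᶠ x : ℝ in atTop, 2 * Real.log x ≤ x / 2 := by
    have := Real.isLittleO_log_id_atTop.bound (show (0:ℝ) < 1 / 4 by norm_num)
    filter_upwards [this, eventually_ge_atTop (1:ℝ)] with x hx hx1
    simp only [id, Real.norm_eq_abs] at hx
    rw [abs_of_nonneg (show 0 ≤ x by linarith)] at hx
    have := le_abs_self (Real.log x)
    linarith
  have e3' := hS.eventually e3
  have e4 : ∀ᶠ x : ℝ in atTop, (2 * b + 1) * Ct * x * Real.exp (-(x / 2)) ≤ ε / (16 * m) := by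
    have h1 : Tendsto (fun x : ℝ => (2 * b + 1) * Ct * (2 * (x / 2 * Real.exp (-(x / 2))))) atTop
        (𝓝 0) := by
      have h2 : Tendsto (fun x : ℝ => x * Real.exp (-x)) atTop (𝓝 0) := by
        simpa using Real.tendsto_pow_mul_exp_neg_atTop_nhds_zero 1
      have h3 : Tendsto (fun x : ℝ => x / 2) atTop atTop :=
        tendsto_id.atTop_div_const (by norm_num)
      have h4 := ((h2.comp h3).const_mul 2).const_mul ((2 * b + 1) * Ct)
      simpa using h4
    filter_upwards [h1.eventually (eventually_le_nhds (show 0 < ε / (16 * m) by positivity))] with x hx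
    refine le_trans (le_of_eq ?_) hx
    ring
  have e4' := hS.eventually e4
  have e5 : ∀ᶠ x : ℝ in atTop, c / x ^ 2 ≤ τ0 := by
    have h1 : Tendsto (fun x : ℝ => c / x ^ 2) atTop (𝓝 0) :=
      (tendsto_pow_atTop (by norm_num)).const_div_atTop c
    exact h1.eventually (eventually_le_nhds hτ0)
  have e5' := hlS.eventually e5
  have e6 : ∀ᶠ N : ℕ in atTop, N + hmx ≤ N ^ 2 := by
    filter_upwards [eventually_ge_atTop (hmx + 2)] with N hN
    nlinarith
  filter_upwards [hbrun, e1, e2, e3', e4', e5', e6, hS.eventually_ge_atTop 1,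
    eventually_ge_atTop 3] with N hbr hCH hl3 hll2 hexp hτ hN2 hS1 hN3
  intro t t' hat htt' ht'b hpat hclose hj hfar
  set S : ℝ := ll N with hSdef
  set l : ℝ := Real.log S with hldef
  have hl3' : 3 ≤ l := (le_max_left _ _).trans hl3
  have hlC : Real.log Cb + 1 ≤ l := (le_max_right _ _).trans hl3
  have hlCb0 : 0 ≤ Real.log Cb := Real.log_nonneg hCb1
  have hS0 : 0 < S := by linarith
  have hlogNpos : 0 < Real.log N := Real.log_pos (by
    have : (3:ℝ) ≤ N := by exact_mod_cast hN3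
    linarith)
  have hexpS : Real.exp S = Real.log N := by
    rw [hSdef]
    unfold ll
    exact Real.exp_log hlogNpos
  set α : ℝ := S - l - Real.log Cb with hα
  have hαS : S / 2 ≤ α := by rw [hα]; linarith
  have hα0 : 0 < α := by linarith
  have hexpα : Real.exp α * (Cb * S) = Real.log N := by
    have hexpl : Real.exp l = S := by rw [hldef]; exact Real.exp_log hS0
    have hCb0 : 0 < Cb := by linarith
    have hexpC : Real.exp (Real.log Cb) = Cb := Real.exp_log hCb0
    rw [hα, Real.exp_sub, Real.exp_sub, hexpS, hexpl, hexpC]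
    field_simp
  set B := N + hmx with hB
  set D := Df (xt t) (xt t') B with hD
  set Q : Finset ℕ := D.filter (fun p : ℕ => Cb * S * Real.log (p:ℝ) ≤ Real.log N) with hQ
  set T : Finset ℕ := D.filter (fun p : ℕ => ¬ Cb * S * Real.log (p:ℝ) ≤ Real.log N) with hT
  have hQT : Q ∪ T = D := Finset.filter_union_filter_not_eq _ _
  have hdisj : Disjoint Q T := Finset.disjoint_filter_filter_not _ _ _
  have hDz : ∀ p ∈ D, z < p := by
    intro p hp
    by_contra hcon
    push Not at hcon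
    exact (mem_Df.mp hp).2.2 (hpat p hcon)
  have hpow : ∀ n ∈ Ioc (Mw δ N) N, |prodSeq (rs (xt t)) H n * prodSeq (rs (xt t')) H n -
      ∏ h ∈ H, sQ Q (n + h)| ≤ ∑ h ∈ H, ∑ p ∈ T, 2 * (if p ∣ n + h then (1:ℝ) else 0) := by
    intro n hn
    rw [mem_Ioc] at hn
    have h1 : prodSeq (rs (xt t)) H n * prodSeq (rs (xt t')) H n = ∏ h ∈ H, sQ (Q ∪ T) (n + h) := by
      unfold prodSeq
      rw [← Finset.prod_mul_distrib, hQT]
      refine Finset.prod_congr rfl fun h hh => ?_
      exact sg_rs_mul (by omega) (by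
        have := hHle h hh
        omega)
    rw [h1]
    exact prod_sQ_sub hdisj n
  have h1 := WA_sub_le hN3 _ _ _ hpow
  have h2 := WA_ind_le (H := H) (T := T) (M := Mw δ N) (N := N) (hm := hmx) hN3 hHle (by
    intro p hp
    have hpD : p ∈ D := (Finset.mem_filter.mp hp).1
    have := hDz p hpD
    refine ⟨(mem_Df.mp hpD).2.1, ?_⟩
    rw [hz] at this
    unfold zH at this
    omega) hCH
  have h3 := hbr Q (by
    intro p hp
    obtain ⟨hpD, hpQ⟩ := Finset.mem_filter.mp hp
    have := hDz p hpD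
    exact ⟨(mem_Df.mp hpD).2.1, by omega, hpQ⟩)
  -- the sum over T
  have hTsum : ∑ p ∈ T, (1:ℝ) / p ≤ ε / (8 * m) := by
    obtain ⟨j, hj⟩ := hj
    have hTp : ∀ p ∈ T, p.Prime ∧ α ≤ ll p ∧ ll p ≤ α + 2 * l ∧
        |t * ll p - round (t * ll p)| ≤ c / l + c / l ^ 2 * (2 * l) := by
      intro p hp
      obtain ⟨hpD, hpT⟩ := Finset.mem_filter.mp hp
      obtain ⟨hpB, hpp, hpne⟩ := mem_Df.mp hpD
      push Not at hpT
      have hp2 : (2:ℝ) ≤ p := by exact_mod_cast hpp.two_le
      have hlp : 0 < Real.log p := Real.log_pos (by linarith)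
      have hα1 : α ≤ ll p := by
        unfold ll
        rw [Real.le_log_iff_exp_le hlp]
        rw [← hexpα] at hpT
        have h9 : 0 < Cb * S := by positivity
        by_contra hcon
        push Not at hcon
        have h10 := mul_lt_mul_of_pos_left hcon h9
        linarith
      have hup : ll p ≤ S + 1 := by
        have h5 : Real.log p ≤ 2 * Real.log N := by
          have h6 : (p:ℝ) ≤ (N:ℝ) ^ 2 := by exact_mod_cast hpB.trans hN2
          calc Real.log p ≤ Real.log ((N:ℝ) ^ 2) := Real.log_le_log (by linarith) h6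
            _ = 2 * Real.log N := by rw [Real.log_pow]; norm_num
        unfold ll
        rw [Real.log_le_iff_le_exp hlp, Real.exp_add, hexpS]
        have h7 : 2 ≤ Real.exp 1 := by
          have := Real.add_one_le_exp (1:ℝ)
          linarith
        have h8 := mul_le_mul_of_nonneg_left h7 hlogNpos.le
        linarith
      have hαl : S + 1 ≤ α + 2 * l := by rw [hα]; linarith
      refine ⟨hpp, hα1, by linarith, ?_⟩
      apply parity_close hclose hj _ hpne
      rw [abs_le]
      constructor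
      · linarith
      · linarith
    have h4 := htop t (c / l + c / l ^ 2 * (2 * l)) α (2 * l) (by linarith) (by positivity)
      hα0.le (by linarith) T hTp
    refine h4.trans ?_
    have h5 : c / l + c / l ^ 2 * (2 * l) = 3 * c / l := by field_simp; ring
    rw [h5]
    have h6 : t * (2 * l) + 3 ≤ (2 * b + 1) * l := by
      have h9 : t ≤ b := by linarith
      have h10 := mul_le_mul_of_nonneg_right h9 (show 0 ≤ 2 * l by linarith)
      linarith
    have h7 : 2 * (3 * c / l) / t + Ct * Real.exp (-α) ≤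
        2 * (3 * c / l) / a + Ct * Real.exp (-(S / 2)) := by
      apply add_le_add
      · exact div_le_div_of_nonneg_left (by positivity) ha hat
      · apply mul_le_mul_of_nonneg_left _ hCt.le
        apply Real.exp_le_exp.mpr
        linarith
    have hlS : l ≤ S := by
      rw [hldef]
      have := Real.log_le_sub_one_of_pos hS0
      linarith
    calc (t * (2 * l) + 3) * (2 * (3 * c / l) / t + Ct * Real.exp (-α))
        ≤ ((2 * b + 1) * l) * (2 * (3 * c / l) / a + Ct * Real.exp (-(S / 2))) := by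
          apply mul_le_mul h6 h7 (by
            have : 0 < t := by linarith
            positivity) (by positivity)
      _ = 6 * (2 * b + 1) * c / a + (2 * b + 1) * Ct * l * Real.exp (-(S / 2)) := by
          field_simp
          ring
      _ ≤ 6 * (2 * b + 1) * c / a + (2 * b + 1) * Ct * S * Real.exp (-(S / 2)) := by
          have : (2 * b + 1) * Ct * l * Real.exp (-(S / 2)) ≤
              (2 * b + 1) * Ct * S * Real.exp (-(S / 2)) := by
            apply mul_le_mul_of_nonneg_right _ (Real.exp_pos _).le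
            apply mul_le_mul_of_nonneg_left hlS
            positivity
          linarith
      _ ≤ ε / (16 * m) + ε / (16 * m) := by
          apply add_le_add _ hexp
          rw [hc]
          apply le_of_eq
          field_simp
          norm_num
      _ = ε / (8 * m) := by field_simp; norm_num
  -- the sum over Q
  have hQsum : ρ ≤ ∑ p ∈ Q, (1:ℝ) / p := by
    have habs : |t - t'| = t' - t := by rw [abs_sub_comm, abs_of_pos (by linarith)]
    rw [habs] at hfar hclose
    apply hsep α t t' hα0 hat htt' ht'b (hclose.trans hτ)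
    · have h5 : 4 * K0 ≤ (t' - t) * S ^ 2 := by
        rw [div_le_iff₀ (by positivity)] at hfar
        exact hfar
      have h6 : S ^ 2 / 4 ≤ α ^ 2 := by
        have := pow_le_pow_left₀ (show 0 ≤ S / 2 by linarith) hαS 2
        linarith [show (S / 2) ^ 2 = S ^ 2 / 4 by ring]
      have h7 : 0 < t' - t := by linarith
      have h8 := mul_le_mul_of_nonneg_left h6 h7.le
      linarith
    · intro p hpp hzp hpα hpne
      have hp2 : (2:ℝ) ≤ p := by exact_mod_cast hpp.two_le
      have hlp : 0 < Real.log p := Real.log_pos (by linarith)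
      have h5 : Real.log p ≤ Real.exp α := by
        unfold ll at hpα
        rw [← Real.log_le_iff_le_exp hlp]
        exact hpα
      have h6 : Cb * S * Real.log p ≤ Real.log N := by
        rw [← hexpα]
        have h9 : 0 < Cb * S := by positivity
        have h10 := mul_le_mul_of_nonneg_left h5 h9.le
        linarith
      rw [hQ, Finset.mem_filter]
      refine ⟨mem_Df.mpr ⟨?_, hpp, hpne⟩, h6⟩
      have h7 : Real.log p ≤ Real.log N := by
        have h9 : 1 ≤ Cb * S := one_le_mul_of_one_le_of_one_le hCb1 hS1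
        have h10 := mul_le_mul_of_nonneg_right h9 hlp.le
        linarith
      have h8 : (p:ℝ) ≤ N := by
        have hN0 : (0:ℝ) < N := by
          have : (3:ℝ) ≤ N := by exact_mod_cast hN3
          linarith
        exact (Real.log_le_log_iff (by linarith) hN0).mp h7
      have h9 : p ≤ N := by exact_mod_cast h8
      omega
  have h4 : Real.exp (-2 * H.card * ∑ p ∈ Q, (1:ℝ) / p) ≤ ε / 4 := by
    have h5 : -2 * H.card * ∑ p ∈ Q, (1:ℝ) / p ≤ -ρ := by
      have hρ0 : 0 ≤ ρ := abs_nonneg _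
      have h6 : 0 ≤ ∑ p ∈ Q, (1:ℝ) / p := hρ0.trans hQsum
      rw [← hm]
      have h7 := mul_le_mul hm1 hQsum hρ0 (by linarith)
      linarith
    calc Real.exp (-2 * H.card * ∑ p ∈ Q, (1:ℝ) / p) ≤ Real.exp (-ρ) := Real.exp_le_exp.mpr h5
      _ ≤ Real.exp (-Real.log (4 / ε)) := by
          apply Real.exp_le_exp.mpr
          have := le_abs_self (Real.log (4 / ε))
          linarith
      _ = ε / 4 := by
          rw [Real.exp_neg, Real.exp_log (by positivity), inv_div]
  have h5 : 4 * (H.card : ℝ) * ∑ p ∈ T, (1:ℝ) / p ≤ ε / 2 := by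
    calc 4 * (H.card : ℝ) * ∑ p ∈ T, (1:ℝ) / p ≤ 4 * m * (ε / (8 * m)) := by
          rw [← hm]
          exact mul_le_mul_of_nonneg_left hTsum (by positivity)
      _ = ε / 2 := by field_simp; norm_num
  linarith

end Pool.Agent.Lib.P4a7640L
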