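import Mathlib
import Pool.Agent.Lib.P4a7640L.Inner
import Pool.Agent.Lib.P4a7640L.Bessel

/-!
# Covering the bad parameters at one scale

PROOF. Use `inner_small` with `δ/4` for the window and `ε = (δ/2)²/2`; it gives `z, K, c`. Let `S = ll N`, `ℓ = log S`,
`κ₂ = c/ℓ²`, `κ₁ = c/ℓ`. Give `t ∈ [a,b]` the key
`key t = ((range (z+1)).filter (fun p => xt t p = -1), ⌊t/κ₂⌋, ⌊fract (t S/2) * 2/κ₁⌋)`. The keys lie in
`powerset (range (z+1)) ×ˢ Icc 0 ⌊b/κ₂⌋ ×ˢ Icc 0 ⌊2/κ₁⌋`, so there are at most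
`2^(z+1) (b/κ₂ + 1) (2/κ₁ + 1) ≤ C ℓ³` keys (for `ℓ ≥ 1`). Two `t ≠ t'` with the same key satisfy all the
hypotheses of `inner_small` except the last one (a value of `ℤˣ` is `1` or `-1`, `Int.units_eq_one_or`).
`|LA u N| ≤ |WA (Mw (δ/4) N) N u| + (1 + log (Mw (δ/4) N))/log N` for `|u| ≤ 1`, and `log (Mw (δ/4) N) ≤ (δ/4) log N + 1`,
so `δ ≤ |LA|` implies `δ/2 ≤ |WA|` for large `N`. The set `A_key` of all `t ∈ [a,b]` with the given key and
`δ ≤ |LA (prodSeq (g * rs (xt t)) H) N|` satisfies the hypothesis of `packing` with `r = K/S²` and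
`L = ⌊2/(δ/2)²⌋`, by `bessel` (`G = prodSeq g H`, `ψ_t = prodSeq (rs (xt t)) H`; `prodSeq_mul_fun`,
`abs_prodSeq`; the inner products are symmetric so one may assume `t < t'`). Take the union over the keys.
-/

open Finset Filter Topology

namespace Pool.Agent.Lib.P4a7640L

open Pool.Agent.Lib.P4a7640

namespace CoverAux

lemma floor_close {x y : ℝ} (hx : 0 ≤ x) (hy : 0 ≤ y) (h : ⌊x⌋₊ = ⌊y⌋₊) : |x - y| < 1 := by
  have h1 := Nat.floor_le hx
  have h2 := Nat.lt_floor_add_one x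
  have h3 := Nat.floor_le hy
  have h4 := Nat.lt_floor_add_one y
  rw [h] at h1 h2
  rw [abs_lt]
  constructor <;> linarith

lemma sum_inv_Icc_le (M : ℕ) : ∑ n ∈ Icc 1 M, (1:ℝ) / n ≤ 1 + Real.log M := by
  rcases Nat.eq_zero_or_pos M with rfl | hM
  · simp
  · have h1 : Icc 1 M = insert 1 (Ioc 1 M) := by
      ext n
      simp only [mem_Icc, mem_insert, mem_Ioc]
      omega
    rw [h1, Finset.sum_insert (by simp)]
    have h2 := sum_Ioc_inv_le (a := 1) (b := M) le_rfl hM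
    simp only [Nat.cast_one, div_one, Real.log_one, sub_zero] at h2 ⊢
    gcongr

lemma LA_le_WA {u : ℕ → ℝ} (hu : ∀ n, |u n| ≤ 1) {M N : ℕ} (hM : 1 ≤ M) (hN : 0 < Real.log N) :
    |LA u N| ≤ |WA M N u| + (1 + Real.log M) / Real.log N := by
  have h1 : Icc 1 N = Icc 1 (min M N) ∪ Ioc M N := by
    ext n
    simp only [mem_Icc, mem_union, mem_Ioc]
    omega
  have hd : Disjoint (Icc 1 (min M N)) (Ioc M N) := by
    rw [Finset.disjoint_left]
    intro n h1 h2
    rw [mem_Icc] at h1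
    rw [mem_Ioc] at h2
    omega
  unfold LA WA
  rw [h1, Finset.sum_union hd, add_div]
  have h2 : |∑ n ∈ Icc 1 (min M N), u n / n| ≤ 1 + Real.log M := by
    calc |∑ n ∈ Icc 1 (min M N), u n / n| ≤ ∑ n ∈ Icc 1 (min M N), |u n / n| :=
          Finset.abs_sum_le_sum_abs _ _
      _ ≤ ∑ n ∈ Icc 1 (min M N), (1:ℝ) / n := by
          apply Finset.sum_le_sum
          intro n _
          rw [abs_div, Nat.abs_cast]
          gcongr
          exact hu n
      _ ≤ ∑ n ∈ Icc 1 M, (1:ℝ) / n := by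
          apply Finset.sum_le_sum_of_subset_of_nonneg
          · apply Finset.Icc_subset_Icc le_rfl (min_le_left _ _)
          · intro n _ _; positivity
      _ ≤ _ := sum_inv_Icc_le M
  calc |(∑ n ∈ Icc 1 (min M N), u n / n) / Real.log N + (∑ n ∈ Ioc M N, u n / n) / Real.log N|
      ≤ |(∑ n ∈ Icc 1 (min M N), u n / n) / Real.log N| + |(∑ n ∈ Ioc M N, u n / n) / Real.log N| :=
        abs_add_le _ _
    _ ≤ (1 + Real.log M) / Real.log N + |(∑ n ∈ Ioc M N, u n / n) / Real.log N| := by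
        gcongr
        rw [abs_div, abs_of_pos hN]
        gcongr
    _ = _ := add_comm _ _

lemma log_Mw {δ : ℝ} (hδ : 0 < δ) {N : ℕ} (hN : 0 < Real.log N) :
    1 ≤ Mw δ N ∧ Real.log (Mw δ N) ≤ δ * Real.log N + 1 := by
  unfold Mw
  have h1 : 1 ≤ ⌈Real.exp (δ * Real.log N)⌉₊ := Nat.one_le_ceil_iff.2 (Real.exp_pos _)
  refine ⟨h1, ?_⟩
  have h2 : (⌈Real.exp (δ * Real.log N)⌉₊ : ℝ) < Real.exp (δ * Real.log N) + 1 :=
    Nat.ceil_lt_add_one (Real.exp_pos _).le
  have h3 : 1 ≤ Real.exp (δ * Real.log N) := Real.one_le_exp (by positivity)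
  have h4 : (⌈Real.exp (δ * Real.log N)⌉₊ : ℝ) ≤ Real.exp (δ * Real.log N + 1) := by
    rw [Real.exp_add]
    have h5 : (2:ℝ) ≤ Real.exp 1 := by
      have := Real.add_one_le_exp (1:ℝ)
      linarith
    nlinarith
  have h6 : (0:ℝ) < (⌈Real.exp (δ * Real.log N)⌉₊ : ℝ) := by exact_mod_cast h1
  rw [Real.log_le_iff_le_exp h6]
  exact h4

lemma tendsto_ll : Tendsto (fun N : ℕ => ll N) atTop atTop :=
  Real.tendsto_log_atTop.comp (Real.tendsto_log_atTop.comp tendsto_natCast_atTop_atTop)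

end CoverAux

open CoverAux

theorem cover_scale {H : Finset ℕ} (hne : H.Nonempty) {a b δ : ℝ} (ha : 0 < a) (hab : a ≤ b)
    (hδ : 0 < δ) :
    ∃ C : ℝ, 0 < C ∧ ∀ᶠ N : ℕ in atTop, ∀ g : ℕ → ℤˣ, ∃ F : Finset ℝ,
      (F.card : ℝ) ≤ C * (Real.log (ll N)) ^ 3 ∧
      ∀ t : ℝ, a ≤ t → t ≤ b → δ ≤ |LA (prodSeq (fun n => g n * rs (xt t) n) H) N| →
        ∃ x ∈ F, |t - x| ≤ C / (ll N) ^ 2 := by
  classical
  have hb : 0 < b := ha.trans_le hab
  obtain ⟨z, K, hK, c, hc, hin⟩ := inner_small hne ha hab (δ := δ / 4) (ε := (δ / 2) ^ 2 / 2)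
    (by positivity) (by positivity)
  set L := ⌊2 / (δ / 2) ^ 2⌋₊ with hL
  set C₁ : ℝ := (2:ℝ) ^ (z + 1) * (b / c + 1) * (2 / c + 1) * (L + 1) with hC₁
  refine ⟨max C₁ K, lt_max_of_lt_right hK, ?_⟩
  have hl1 : ∀ᶠ N : ℕ in atTop, 1 ≤ Real.log (ll N) :=
    (Real.tendsto_log_atTop.comp tendsto_ll).eventually_ge_atTop 1
  have hl2 : ∀ᶠ N : ℕ in atTop, 8 / δ + 1 ≤ Real.log N :=
    (Real.tendsto_log_atTop.comp tendsto_natCast_atTop_atTop).eventually_ge_atTop _
  have hl3 : ∀ᶠ N : ℕ in atTop, 1 ≤ ll N := tendsto_ll.eventually_ge_atTop 1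
  filter_upwards [hin, hl1, hl2, hl3, eventually_ge_atTop 3] with N hN hℓ hlogN hS hN3 g
  have hlog0 : 0 < Real.log N := by
    have : 0 < 8 / δ := by positivity
    linarith
  set S := ll N with hSdef
  set ℓ := Real.log S with hℓdef
  have hS0 : 0 < S := by linarith
  have hℓ0 : 0 < ℓ := by linarith
  set κ₂ := c / ℓ ^ 2 with hκ₂
  set κ₁ := c / ℓ with hκ₁
  have hκ₂0 : 0 < κ₂ := by positivity
  have hκ₁0 : 0 < κ₁ := by positivity
  set M := Mw (δ / 4) N with hMdef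
  obtain ⟨hM1, hMlog⟩ := log_Mw (δ := δ / 4) (by positivity) hlog0
  rw [← hMdef] at hM1 hMlog
  let key : ℝ → Finset ℕ × ℕ × ℕ := fun t =>
    ((range (z + 1)).filter (fun p => xt t p = -1), ⌊t / κ₂⌋₊, ⌊Int.fract (t * S / 2) * (2 / κ₁)⌋₊)
  let keys : Finset (Finset ℕ × ℕ × ℕ) :=
    (range (z + 1)).powerset ×ˢ (range (⌊b / κ₂⌋₊ + 1)) ×ˢ (range (⌊2 / κ₁⌋₊ + 1))
  have hkey : ∀ t, a ≤ t → t ≤ b → key t ∈ keys := by
    intro t hat htb
    simp only [keys, key, mem_product, mem_powerset, mem_range]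
    refine ⟨filter_subset _ _, ?_, ?_⟩
    · have : ⌊t / κ₂⌋₊ ≤ ⌊b / κ₂⌋₊ := Nat.floor_mono (by gcongr)
      omega
    · have : ⌊Int.fract (t * S / 2) * (2 / κ₁)⌋₊ ≤ ⌊2 / κ₁⌋₊ := by
        apply Nat.floor_mono
        calc Int.fract (t * S / 2) * (2 / κ₁) ≤ 1 * (2 / κ₁) := by
              gcongr
              exact (Int.fract_lt_one _).le
          _ = _ := one_mul _
      omega
  have hkeys : (keys.card : ℝ) * (L + 1) ≤ C₁ * ℓ ^ 3 := by
    have h1 : (keys.card : ℝ) = (2:ℝ) ^ (z + 1) * ((⌊b / κ₂⌋₊ + 1) * (⌊2 / κ₁⌋₊ + 1)) := by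
      simp only [keys, card_product, card_powerset, card_range]
      push_cast
      ring
    have h2 : (⌊b / κ₂⌋₊ : ℝ) + 1 ≤ (b / c + 1) * ℓ ^ 2 := by
      have h3 : (⌊b / κ₂⌋₊ : ℝ) ≤ b / κ₂ := Nat.floor_le (by positivity)
      have h4 : b / κ₂ = b / c * ℓ ^ 2 := by rw [hκ₂]; field_simp
      have h5 : 1 ≤ ℓ ^ 2 := one_le_pow₀ hℓ
      have h6 : (⌊b / κ₂⌋₊ : ℝ) ≤ b / c * ℓ ^ 2 := h3.trans h4.le
      linarith
    have h3 : (⌊2 / κ₁⌋₊ : ℝ) + 1 ≤ (2 / c + 1) * ℓ := by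
      have h3 : (⌊2 / κ₁⌋₊ : ℝ) ≤ 2 / κ₁ := Nat.floor_le (by positivity)
      have h4 : 2 / κ₁ = 2 / c * ℓ := by rw [hκ₁]; field_simp
      have h6 : (⌊2 / κ₁⌋₊ : ℝ) ≤ 2 / c * ℓ := h3.trans h4.le
      linarith
    rw [h1, hC₁]
    calc (2:ℝ) ^ (z + 1) * ((⌊b / κ₂⌋₊ + 1) * (⌊2 / κ₁⌋₊ + 1)) * (L + 1)
        ≤ (2:ℝ) ^ (z + 1) * (((b / c + 1) * ℓ ^ 2) * ((2 / c + 1) * ℓ)) * (L + 1) := by gcongr
      _ = _ := by ring
  -- the sets with a given key
  let A : Finset ℕ × ℕ × ℕ → Set ℝ := fun k => {t | (a ≤ t ∧ t ≤ b) ∧ key t = k ∧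
    δ ≤ |LA (prodSeq (fun n => g n * rs (xt t) n) H) N|}
  have hpack : ∀ k, ∃ F : Finset ℝ, F.card ≤ L ∧ ∀ x ∈ A k, ∃ y ∈ F, |x - y| ≤ K / S ^ 2 := by
    intro k
    apply packing (by positivity)
    intro s hs hsep
    have hcard : (s.card : ℝ) ≤ 2 / (δ / 2) ^ 2 := by
      apply bessel hM1 hN3 (G := prodSeq g H) (fun n => (abs_prodSeq g H n).le) s
        (ψ := fun t => prodSeq (rs (xt t)) H) (fun t _ n => (abs_prodSeq _ H n).le)
        (δ := δ / 2) (by positivity)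
      · intro t ht
        obtain ⟨-, -, h3⟩ := hs t ht
        have h4 : (fun n => prodSeq g H n * prodSeq (rs (xt t)) H n)
            = prodSeq (fun n => g n * rs (xt t) n) H := by
          funext n
          exact (prodSeq_mul_fun g (rs (xt t)) H n).symm
        rw [h4]
        have h5 := LA_le_WA (u := prodSeq (fun n => g n * rs (xt t) n) H)
          (fun n => (abs_prodSeq _ H n).le) hM1 hlog0
        have h6 : (1 + Real.log M) / Real.log N ≤ δ / 2 := by
          rw [div_le_iff₀ hlog0]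
          have h7 : 8 ≤ δ * Real.log N := by
            have h8 : 8 / δ ≤ Real.log N := by linarith
            rw [div_le_iff₀ hδ] at h8
            linarith
          linarith
        linarith
      · have main : ∀ t ∈ s, ∀ t' ∈ s, t < t' →
            |WA M N (fun n => prodSeq (rs (xt t)) H n * prodSeq (rs (xt t')) H n)| ≤
              (δ / 2) ^ 2 / 2 := by
          intro t ht t' ht' htt'
          obtain ⟨⟨h1, h2⟩, h3, -⟩ := hs t ht
          obtain ⟨⟨h1', h2'⟩, h3', -⟩ := hs t' ht'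
          have hkk : key t = key t' := h3.trans h3'.symm
          simp only [key, Prod.mk.injEq] at hkk
          obtain ⟨k1, k2, k3⟩ := hkk
          have ht0 : 0 < t := ha.trans_le h1
          have ht'0 : 0 < t' := ha.trans_le h1'
          refine hN t t' h1 htt' h2' ?_ ?_ ?_ ?_
          · intro p hp
            have h4 : p ∈ (range (z + 1)).filter (fun p => xt t p = -1) ↔
                p ∈ (range (z + 1)).filter (fun p => xt t' p = -1) := by rw [k1]
            simp only [mem_filter, mem_range, Nat.lt_succ_iff, hp, true_and] at h4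
            rcases Int.units_eq_one_or (xt t p) with h5 | h5
            · rcases Int.units_eq_one_or (xt t' p) with h6 | h6
              · rw [h5, h6]
              · rw [h4.2 h6, h6]
            · rw [h5, h4.1 h5]
          · have h4 := floor_close (by positivity) (by positivity) k2
            have h5 : t / κ₂ - t' / κ₂ = (t - t') / κ₂ := by ring
            rw [h5, abs_div, abs_of_pos hκ₂0, div_lt_one hκ₂0] at h4
            exact h4.le
          · have h4 := floor_close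
              (mul_nonneg (Int.fract_nonneg _) (by positivity))
              (mul_nonneg (Int.fract_nonneg _) (by positivity)) k3
            refine ⟨⌊t * S / 2⌋ - ⌊t' * S / 2⌋, ?_⟩
            have h5 : t * S - t' * S - 2 * ((⌊t * S / 2⌋ - ⌊t' * S / 2⌋ : ℤ) : ℝ)
                = 2 * (Int.fract (t * S / 2) - Int.fract (t' * S / 2)) := by
              have e1 := Int.self_sub_floor (t * S / 2)
              have e2 := Int.self_sub_floor (t' * S / 2)
              push_cast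
              linarith
            rw [h5]
            have h6 : Int.fract (t * S / 2) * (2 / κ₁) - Int.fract (t' * S / 2) * (2 / κ₁)
                = 2 * (Int.fract (t * S / 2) - Int.fract (t' * S / 2)) / κ₁ := by
              field_simp
            rw [h6, abs_div, abs_of_pos hκ₁0, div_lt_one hκ₁0] at h4
            exact h4.le
          · exact hsep t ht t' ht' htt'.ne
        intro t ht t' ht' hne'
        rcases lt_or_gt_of_ne hne' with h | h
        · exact main t ht t' ht' h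
        · have := main t' ht' t ht h
          simp only [mul_comm] at this ⊢
          exact this
    exact Nat.le_floor hcard
  choose Fk hFk1 hFk2 using hpack
  refine ⟨keys.biUnion Fk, ?_, ?_⟩
  · have h1 : ((keys.biUnion Fk).card : ℝ) ≤ keys.card * (L + 1) := by
      have h2 : (keys.biUnion Fk).card ≤ keys.card * L :=
        Finset.card_biUnion_le_card_mul _ _ _ fun k _ => hFk1 k
      have h3 : ((keys.biUnion Fk).card : ℝ) ≤ keys.card * L := by exact_mod_cast h2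
      have h4 : (0:ℝ) ≤ keys.card := Nat.cast_nonneg _
      linarith
    have h2 : C₁ * ℓ ^ 3 ≤ max C₁ K * ℓ ^ 3 :=
      mul_le_mul_of_nonneg_right (le_max_left _ _) (by positivity)
    linarith
  · intro t hat htb hδt
    obtain ⟨y, hy, hy'⟩ := hFk2 (key t) t ⟨⟨hat, htb⟩, rfl, hδt⟩
    refine ⟨y, mem_biUnion.2 ⟨key t, hkey t hat htb, hy⟩, hy'.trans ?_⟩
    gcongr
    exact le_max_right _ _

end Pool.Agent.Lib.P4a7640L
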