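import Mathlib
import Pool.Agent.Lib.P4a7640L.Base

/-!
# A net of scales

`Nk η k = ⌈exp (exp (η k))⌉₊`.

PROOF of `ll_Nk`: `exp (exp (η k)) ≤ Nk ≤ exp (exp (η k)) + 1 ≤ exp (exp (η k) + 1)` (see `P4a7640.log_NK_le` in
`Lib/P4a7640/Interp.lean` for the same computation), so `exp (η k) ≤ log Nk ≤ exp (η k) + 1 ≤ exp (η k + 1)`.
PROOF of `net_interp`: as `P4a7640.interp` in `Lib/P4a7640/Interp.lean` (copy it): for large `N` there is a `k` with
`Nk k ≤ N < Nk (k+1)`, and `LA_step` gives `|LA a N| ≤ |LA a (Nk k)| + (log Nk (k+1)/log Nk k - 1)`, where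
`log Nk(k+1)/log Nk k ≤ (exp (η (k+1)) + 1)/exp (η k) = exp η + exp (-η k) ≤ exp (2 η)` for large `k`.
-/

open Finset Filter Topology

namespace Pool.Agent.Lib.P4a7640L

open Pool.Agent.Lib.P4a7640

namespace Net46

theorem exp_le_log {η : ℝ} (k : ℕ) : Real.exp (η * k) ≤ Real.log (Nk η k) := by
  have h1 : Real.exp (Real.exp (η * k)) ≤ Nk η k := Nat.le_ceil _
  rw [← Real.log_exp (Real.exp (η * k))]
  exact Real.log_le_log (Real.exp_pos _) h1

theorem log_le {η : ℝ} (k : ℕ) : Real.log (Nk η k) ≤ Real.exp (η * k) + 1 := by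
  have h1 : (Nk η k : ℝ) ≤ Real.exp (Real.exp (η * k)) + 1 :=
    (Nat.ceil_lt_add_one (Real.exp_pos _).le).le
  have h2 : Real.exp (Real.exp (η * k)) + 1 ≤ Real.exp (Real.exp (η * k) + 1) := by
    rw [Real.exp_add]
    have h3 : 1 ≤ Real.exp (Real.exp (η * k)) := Real.one_le_exp (Real.exp_pos _).le
    have h4 : (2:ℝ) ≤ Real.exp 1 := by
      have := Real.add_one_le_exp (1:ℝ)
      linarith
    nlinarith
  have h5 : (0:ℝ) < Nk η k := lt_of_lt_of_le (Real.exp_pos _) (Nat.le_ceil _)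
  rw [← Real.log_exp (Real.exp (η * k) + 1)]
  exact Real.log_le_log h5 (h1.trans h2)

theorem mono {η : ℝ} (hη : 0 < η) : Monotone (Nk η) := by
  intro j k hjk
  unfold Nk
  apply Nat.ceil_le_ceil
  apply Real.exp_le_exp.mpr
  apply Real.exp_le_exp.mpr
  exact mul_le_mul_of_nonneg_left (by exact_mod_cast hjk) hη.le

end Net46

theorem ll_Nk {η : ℝ} (hη : 0 < η) (k : ℕ) : η * k ≤ ll (Nk η k) ∧ ll (Nk η k) ≤ η * k + 1 := by
  have h1 := Net46.exp_le_log (η := η) k
  have h2 := Net46.log_le (η := η) k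
  have h0 : 0 < Real.log (Nk η k) := (Real.exp_pos _).trans_le h1
  unfold ll
  constructor
  · rw [Real.le_log_iff_exp_le h0]
    exact h1
  · rw [Real.log_le_iff_le_exp h0, Real.exp_add]
    have h3 : 1 ≤ Real.exp (η * k) := Real.one_le_exp (by positivity)
    have h4 : (2:ℝ) ≤ Real.exp 1 := by
      have := Real.add_one_le_exp (1:ℝ)
      linarith
    nlinarith

theorem tendsto_Nk {η : ℝ} (hη : 0 < η) : Tendsto (Nk η) atTop atTop := by
  have h1 : Tendsto (fun k : ℕ => η * (k : ℝ)) atTop atTop :=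
    tendsto_natCast_atTop_atTop.const_mul_atTop hη
  exact tendsto_nat_ceil_atTop.comp (Real.tendsto_exp_atTop.comp (Real.tendsto_exp_atTop.comp h1))

theorem net_interp {η : ℝ} (hη : 0 < η) {a : ℕ → ℝ} (ha : ∀ n, |a n| ≤ 1) {δ : ℝ}
    (h : ∀ᶠ k : ℕ in atTop, |LA a (Nk η k)| ≤ δ) :
    ∀ᶠ N : ℕ in atTop, |LA a N| ≤ δ + (Real.exp (2 * η) - 1) := by
  have h1 : Tendsto (fun k : ℕ => η * (k : ℝ)) atTop atTop :=
    tendsto_natCast_atTop_atTop.const_mul_atTop hη
  have hexp : Tendsto (fun k : ℕ => Real.exp (-(η * k))) atTop (𝓝 0) :=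
    Real.tendsto_exp_neg_atTop_nhds_zero.comp h1
  have hgap : 0 < Real.exp (2 * η) - Real.exp η := by
    rw [sub_pos]
    exact Real.exp_lt_exp.2 (by linarith)
  obtain ⟨K1, hK1⟩ := eventually_atTop.mp h
  obtain ⟨K2, hK2⟩ := eventually_atTop.mp (hexp.eventually_lt_const hgap)
  obtain ⟨K3, hK3⟩ := eventually_atTop.mp ((tendsto_Nk hη).eventually_ge_atTop 2)
  set K := max K1 (max K2 K3) with hK
  refine eventually_atTop.mpr ⟨Nk η K, fun N hN => ?_⟩
  have hex : ∃ k, N < Nk η k := by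
    obtain ⟨k, hk⟩ := eventually_atTop.mp ((tendsto_Nk hη).eventually_gt_atTop N)
    exact ⟨k, hk k le_rfl⟩
  classical
  have h1 := Nat.find_spec hex
  have h2 : K < Nat.find hex := by
    by_contra hcon
    push Not at hcon
    have := Net46.mono hη hcon
    omega
  obtain ⟨k, hk⟩ : ∃ k, Nat.find hex = k + 1 := ⟨Nat.find hex - 1, by omega⟩
  have h3 : Nk η k ≤ N := by
    have := Nat.find_min hex (show k < Nat.find hex by omega)
    omega
  rw [hk] at h1
  have hkK : K ≤ k := by omega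
  have hkK1 : K1 ≤ k := (le_max_left _ _).trans hkK
  have hkK2 : K2 ≤ k := ((le_max_left _ _).trans (le_max_right _ _)).trans hkK
  have hkK3 : K3 ≤ k := ((le_max_right _ _).trans (le_max_right _ _)).trans hkK
  have h4 := LA_step ha (hK3 k hkK3) h3 h1.le
  have h5 := hK1 k hkK1
  have h6 := hK2 k hkK2
  have hratio : Real.log (Nk η (k + 1)) / Real.log (Nk η k) ≤ Real.exp (2 * η) := by
    have e0 := Real.exp_pos (η * k)
    have e1 := Net46.exp_le_log (η := η) k
    have e2 := Net46.log_le (η := η) (k + 1)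
    calc Real.log (Nk η (k + 1)) / Real.log (Nk η k)
        ≤ (Real.exp (η * (k + 1 : ℕ)) + 1) / Real.log (Nk η k) :=
          div_le_div_of_nonneg_right e2 (e0.le.trans e1)
      _ ≤ (Real.exp (η * (k + 1 : ℕ)) + 1) / Real.exp (η * k) :=
          div_le_div_of_nonneg_left (by positivity) e0 e1
      _ = Real.exp η + Real.exp (-(η * k)) := by
          rw [Real.exp_neg]
          have : η * ((k + 1 : ℕ) : ℝ) = η + η * k := by push_cast; ring
          rw [this, Real.exp_add]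
          field_simp
      _ ≤ Real.exp (2 * η) := by linarith
  linarith

end Pool.Agent.Lib.P4a7640L
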