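import Mathlib
import Pool.Agent.Lib.P4a7640L.Cover
import Pool.Agent.Lib.P4a7640L.DimLim
import Pool.Agent.Lib.P4a7640L.Net

/-!
# Dimension of the bad parameters for one correlation

PROOF. Choose `η > 0` with `exp (2 η) - 1 ≤ δ/2`. If `t ∈ [a,b]` has `∃ᶠ N, δ < |LA .. N|` then by `net_interp`
(contrapositive, with `δ/2`) `∃ᶠ k, δ/2 < |LA .. (Nk η k)|`. By `cover_scale` with `δ/2` at `N = Nk η k` (for `k ≥ k₀`;
`tendsto_Nk`) we get finsets `F k` (`∅` for `k < k₀`), `|F k| ≤ C (log (ll Nk))³ ≤ C (log (η k + 1))^3`, radii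
`r k = C/(η k)²` (any value for `k = 0`). For real `σ > 1/2` the series `∑ (log (ηk+1))³ k^{-2σ}` converges
(`log^3 = o(k^ε)`, `Real.summable_nat_rpow_inv`/`Summable` comparison), so `dimH_limsup` gives `dimH ≤ σ`. Let
`σ → 1/2` (`le_of_forall_gt`-type lemma in `ℝ≥0∞`, e.g. `ENNReal.le_of_forall_pos_le_add` or
`le_of_forall_lt_imp_le_of_dense`).
-/

open Finset Filter Topology MeasureTheory
open scoped NNReal ENNReal

namespace Pool.Agent.Lib.P4a7640L

open Pool.Agent.Lib.P4a7640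

namespace DimBadAux

lemma log_cube_le {η ε : ℝ} (hη : 0 < η) (hε : 0 < ε) :
    ∀ᶠ k : ℕ in atTop, (Real.log (η * k + 1)) ^ 3 ≤ (η + 1) ^ ε * (k : ℝ) ^ ε := by
  have h1 := isLittleO_log_rpow_rpow_atTop 3 hε
  have h2 : Tendsto (fun k : ℕ => η * (k : ℝ) + 1) atTop atTop :=
    tendsto_atTop_add_const_right _ _
      ((tendsto_natCast_atTop_atTop (R := ℝ)).const_mul_atTop hη)
  have h3 := h2.eventually (h1.def one_pos)
  filter_upwards [h3, eventually_ge_atTop 1] with k hk hk1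
  have hk1' : (1 : ℝ) ≤ k := by exact_mod_cast hk1
  have hx : 0 < η * (k : ℝ) + 1 := by positivity
  have hlog : 0 ≤ Real.log (η * k + 1) := Real.log_nonneg (by nlinarith)
  rw [Real.norm_of_nonneg (Real.rpow_nonneg hlog _),
    Real.norm_of_nonneg (Real.rpow_nonneg hx.le _), one_mul] at hk
  have h4 : (Real.log (η * k + 1)) ^ 3 = (Real.log (η * k + 1)) ^ (3 : ℝ) := by
    rw [← Real.rpow_natCast]
    norm_num
  rw [h4]
  refine hk.trans ?_
  rw [← Real.mul_rpow (by linarith) (by linarith)]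
  apply Real.rpow_le_rpow hx.le _ hε.le
  nlinarith

lemma summ {η C σ : ℝ} (hη : 0 < η) (hC : 0 < C) (hσ : 1 / 2 < σ) (F : ℕ → Finset ℝ)
    (hF : ∀ᶠ k : ℕ in atTop, ((F k).card : ℝ) ≤ C * (Real.log (η * k + 1)) ^ 3) :
    Summable fun k : ℕ => ((F k).card : ℝ) * (C / (η * k) ^ 2) ^ σ := by
  have hε : 0 < (2 * σ - 1) / 2 := by linarith
  have hs : Summable fun k : ℕ => 1 / (k : ℝ) ^ (1 + (2 * σ - 1) / 2) :=
    Real.summable_one_div_nat_rpow.mpr (by linarith)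
  apply summable_of_isBigO_nat hs
  apply Asymptotics.IsBigO.of_bound
    (C * (η + 1) ^ ((2 * σ - 1) / 2) * (C / η ^ 2) ^ σ)
  filter_upwards [hF, log_cube_le hη hε, eventually_ge_atTop 1] with k h1 h2 hk1
  have hk0 : (0 : ℝ) < k := by exact_mod_cast hk1
  have h3 : (C / (η * k) ^ 2) ^ σ = (C / η ^ 2) ^ σ * (k : ℝ) ^ (-(2 * σ)) := by
    have : C / (η * k) ^ 2 = (C / η ^ 2) * (k : ℝ) ^ (-2 : ℝ) := by
      rw [Real.rpow_neg hk0.le, Real.rpow_two, mul_pow]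
      field_simp
    rw [this, Real.mul_rpow (by positivity) (by positivity), ← Real.rpow_mul hk0.le]
    congr 2
    ring
  rw [Real.norm_of_nonneg (by positivity), Real.norm_of_nonneg (by positivity), h3]
  have h4 : ((F k).card : ℝ) ≤ C * ((η + 1) ^ ((2 * σ - 1) / 2) * (k : ℝ) ^ ((2 * σ - 1) / 2)) :=
    h1.trans (mul_le_mul_of_nonneg_left h2 hC.le)
  have h5 : 1 / (k : ℝ) ^ (1 + (2 * σ - 1) / 2) =
      (k : ℝ) ^ ((2 * σ - 1) / 2) * (k : ℝ) ^ (-(2 * σ)) := by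
    rw [← Real.rpow_add hk0, one_div, ← Real.rpow_neg hk0.le]
    congr 1
    ring
  rw [h5]
  calc ((F k).card : ℝ) * ((C / η ^ 2) ^ σ * (k : ℝ) ^ (-(2 * σ)))
      ≤ (C * ((η + 1) ^ ((2 * σ - 1) / 2) * (k : ℝ) ^ ((2 * σ - 1) / 2))) *
        ((C / η ^ 2) ^ σ * (k : ℝ) ^ (-(2 * σ))) :=
        mul_le_mul_of_nonneg_right h4 (by positivity)
    _ = _ := by ring

end DimBadAux

open DimBadAux

theorem dim_bad {H : Finset ℕ} (hne : H.Nonempty) (g : ℕ → ℤˣ) {a b δ : ℝ} (ha : 0 < a) (hab : a ≤ b)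
    (hδ : 0 < δ) :
    dimH {t : ℝ | (a ≤ t ∧ t ≤ b) ∧
      ∃ᶠ N : ℕ in atTop, δ < |LA (prodSeq (fun n => g n * rs (xt t) n) H) N|} ≤ 1 / 2 := by
  classical
  obtain ⟨η, hη, hη2⟩ : ∃ η : ℝ, 0 < η ∧ Real.exp (2 * η) - 1 ≤ δ / 2 := by
    refine ⟨Real.log (1 + δ / 2) / 2, div_pos (Real.log_pos (by linarith)) two_pos, ?_⟩
    rw [mul_div_cancel₀ _ (two_ne_zero), Real.exp_log (by linarith)]
    linarith
  obtain ⟨C, hC, hcov⟩ := cover_scale hne ha hab (half_pos hδ)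
  have hcov' := (tendsto_Nk hη).eventually hcov
  -- the sets
  let Q : ℕ → Finset ℝ → Prop := fun k F =>
    (F.card : ℝ) ≤ C * (Real.log (ll (Nk η k))) ^ 3 ∧
      ∀ t : ℝ, a ≤ t → t ≤ b → δ / 2 ≤ |LA (prodSeq (fun n => g n * rs (xt t) n) H) (Nk η k)| →
        ∃ x ∈ F, |t - x| ≤ C / (ll (Nk η k)) ^ 2
  have hQ : ∀ᶠ k in atTop, ∃ F, Q k F := by
    filter_upwards [hcov'] with k hk
    exact hk g
  let F : ℕ → Finset ℝ := fun k => if h : ∃ F, Q k F then h.choose else ∅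
  have hF : ∀ᶠ k in atTop, Q k (F k) := by
    filter_upwards [hQ] with k hk
    have : F k = hk.choose := dif_pos hk
    rw [this]
    exact hk.choose_spec
  have hbig : ∀ᶠ k : ℕ in atTop, 1 ≤ η * (k : ℝ) :=
    ((tendsto_natCast_atTop_atTop (R := ℝ)).const_mul_atTop hη).eventually_ge_atTop 1
  have hcard : ∀ᶠ k : ℕ in atTop, ((F k).card : ℝ) ≤ C * (Real.log (η * k + 1)) ^ 3 := by
    filter_upwards [hF, hbig] with k h1 h2
    refine h1.1.trans (mul_le_mul_of_nonneg_left ?_ hC.le)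
    have h3 := ll_Nk hη k
    have h4 : 0 ≤ Real.log (ll (Nk η k)) := Real.log_nonneg (h2.trans h3.1)
    apply pow_le_pow_left₀ h4
    exact Real.log_le_log (by linarith) h3.2
  have hr0 : Tendsto (fun k : ℕ => C / (η * (k : ℝ)) ^ 2) atTop (𝓝 0) := by
    apply Tendsto.const_div_atTop
    exact (tendsto_pow_atTop (two_ne_zero)).comp
      ((tendsto_natCast_atTop_atTop (R := ℝ)).const_mul_atTop hη)
  have hr : ∀ k : ℕ, 0 ≤ C / (η * (k : ℝ)) ^ 2 := fun k => by positivity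
  have hA : ∀ x ∈ {t : ℝ | (a ≤ t ∧ t ≤ b) ∧
      ∃ᶠ N : ℕ in atTop, δ < |LA (prodSeq (fun n => g n * rs (xt t) n) H) N|},
      ∃ᶠ k in atTop, ∃ y ∈ F k, |x - y| ≤ C / (η * (k : ℝ)) ^ 2 := by
    rintro t ⟨⟨h1, h2⟩, h3⟩
    have h4 : ∃ᶠ k in atTop,
        δ / 2 < |LA (prodSeq (fun n => g n * rs (xt t) n) H) (Nk η k)| := by
      intro h5
      have h6 : ∀ᶠ k in atTop,
          |LA (prodSeq (fun n => g n * rs (xt t) n) H) (Nk η k)| ≤ δ / 2 := by
        filter_upwards [h5] with k hk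
        exact not_lt.mp hk
      have h7 := net_interp hη (fun n => (abs_prodSeq _ H n).le) h6
      apply h3
      filter_upwards [h7] with N hN
      rw [not_lt]
      linarith
    have h5 := h4.and_eventually (hF.and hbig)
    refine h5.mono ?_
    rintro k ⟨hk1, hk2, hk3⟩
    obtain ⟨y, hy, hy2⟩ := hk2.2 t h1 h2 hk1.le
    refine ⟨y, hy, hy2.trans ?_⟩
    have h6 := (ll_Nk hη k).1
    apply div_le_div_of_nonneg_left hC.le (by positivity)
    apply pow_le_pow_left₀ (by linarith) h6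
  apply ENNReal.le_of_forall_pos_le_add
  intro ε hε _
  have hσ : (0 : ℝ≥0) < 1 / 2 + ε := by positivity
  have h1 := dimH_limsup (σ := 1 / 2 + ε) hr hr0 hσ (summ hη hC (by
    rw [NNReal.coe_add, NNReal.coe_div]
    simp only [NNReal.coe_one, NNReal.coe_ofNat]
    have : (0 : ℝ) < ε := hε
    linarith) F hcard) hA
  refine h1.trans (le_of_eq ?_)
  rw [ENNReal.coe_add, ENNReal.coe_div two_ne_zero]
  simp

end Pool.Agent.Lib.P4a7640L
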