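import Mathlib
import Pool.Agent.Lib.P4a7640L.DimBad

/-!
# Final assembly
-/

open Finset Filter Topology MeasureTheory
open scoped NNReal ENNReal

namespace Pool.Agent.Lib.P4a7640L

open Pool.Agent.Lib.P4a7640

theorem dim_exceptional (g : ℕ → ℤˣ) :
    dimH {t : ℝ | 0 < t ∧ ¬ Vanish (fun n => g n * rs (xt t) n)} ≤ 1 / 2 := by
  set S : Finset ℕ × ℕ × ℕ → Set ℝ := fun i =>
    {t : ℝ | i.1.Nonempty ∧ ((1 / ((i.2.2 : ℝ) + 1) ≤ t ∧ t ≤ (i.2.2 : ℝ) + 1) ∧
      ∃ᶠ N : ℕ in atTop, 1 / ((i.2.1 : ℝ) + 1) <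
        |LA (prodSeq (fun n => g n * rs (xt t) n) i.1) N|)} with hS
  have hsub : {t : ℝ | 0 < t ∧ ¬ Vanish (fun n => g n * rs (xt t) n)} ⊆ ⋃ i, S i := by
    rintro t ⟨ht, hv⟩
    unfold Vanish VanishL at hv
    push Not at hv
    obtain ⟨H, hne, hH⟩ := hv
    have hj : ∃ j : ℕ, ∃ᶠ N : ℕ in atTop, 1 / ((j : ℝ) + 1) <
        |LA (prodSeq (fun n => g n * rs (xt t) n) H) N| := by
      by_contra hcon
      push Not at hcon
      apply hH
      rw [Metric.tendsto_nhds]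
      intro ε hε
      obtain ⟨j, hj⟩ := exists_nat_one_div_lt hε
      filter_upwards [hcon j] with N hN
      rw [dist_zero_right, Real.norm_eq_abs]
      linarith
    obtain ⟨j, hj⟩ := hj
    obtain ⟨k1, hk1⟩ := exists_nat_one_div_lt ht
    obtain ⟨k2, hk2⟩ := exists_nat_ge t
    rw [Set.mem_iUnion]
    refine ⟨(H, j, max k1 k2), hne, ⟨?_, ?_⟩, hj⟩
    · refine le_trans ?_ hk1.le
      apply one_div_le_one_div_of_le (by positivity)
      have : (k1:ℝ) ≤ ((max k1 k2 : ℕ) : ℝ) := by exact_mod_cast le_max_left _ _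
      show (k1:ℝ) + 1 ≤ ((max k1 k2 : ℕ) : ℝ) + 1
      linarith
    · have : (k2:ℝ) ≤ ((max k1 k2 : ℕ) : ℝ) := by exact_mod_cast le_max_right _ _
      show t ≤ ((max k1 k2 : ℕ) : ℝ) + 1
      linarith
  refine (dimH_mono hsub).trans ?_
  rw [dimH_iUnion]
  refine iSup_le fun i => ?_
  obtain ⟨H, j, k⟩ := i
  by_cases hne : H.Nonempty
  · have hk : (1 : ℝ) / ((k:ℝ) + 1) ≤ (k:ℝ) + 1 := by
      have : (0:ℝ) ≤ k := Nat.cast_nonneg k
      rw [div_le_iff₀ (by positivity)]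
      nlinarith
    refine (dimH_mono ?_).trans (dim_bad (H := H) hne g (a := 1 / ((k:ℝ) + 1)) (b := (k:ℝ) + 1)
      (δ := 1 / ((j:ℝ) + 1)) (by positivity) hk (by positivity))
    rintro t ⟨_, ht⟩
    exact ht
  · have : S (H, j, k) = ∅ := by
      rw [Set.eq_empty_iff_forall_notMem]
      rintro t ⟨h, _⟩
      exact hne h
    rw [this, dimH_empty]
    exact bot_le

/-- Two multiplicative functions with the same values at all primes have vanishing correlations
simultaneously. -/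
theorem vanish_of_primes {f g : ℕ → ℤˣ} (hf : MultS f) (hg : MultS g)
    (h : ∀ p : ℕ, p.Prime → f p = g p) (hv : Vanish g) : Vanish f := by
  obtain ⟨y, _, hy⟩ := stable_DD hv
  apply hy f (hf.mul hg) 1 (1 : DirichletCharacter ℂ 1) one_pos
  have h0 : (fun N : ℕ => DD (fun p => f p * g p) (1 : DirichletCharacter ℂ 1) (y N) N) =
      fun _ => 0 := by
    funext N
    unfold DD
    apply Finset.sum_eq_zero
    intro p hp
    have hpp : p.Prime := (Finset.mem_filter.mp hp).2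
    have h1 : f p * g p = 1 := by
      rw [h p hpp]
      exact Int.units_mul_self _
    have h2 : (1 : DirichletCharacter ℂ 1) ((p : ℕ) : ZMod 1) = 1 := by
      apply MulChar.one_apply
      rw [Subsingleton.elim ((p : ℕ) : ZMod 1) 1]
      exact isUnit_one
    simp only [h1, h2]
    simp
  rw [h0]
  exact tendsto_const_nhds

theorem main (g : ℕ → ℤˣ) (hg : MultS g) : ∃ E : Set ℝ, dimH E ≤ 1 / 2 ∧ ∀ t : ℝ, 0 < t → t ∉ E →
    ∀ f : ℕ → ℤˣ, MultS f → (∀ p : ℕ, p.Prime → f p = g p * xt t p) → Aperiodic f ∧ FairSystem f := by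
  refine ⟨_, dim_exceptional g, fun t ht htE f hf hfp => ?_⟩
  have hv : Vanish (fun n => g n * rs (xt t) n) := by
    by_contra hcon
    exact htE ⟨ht, hcon⟩
  have hm : MultS (fun n => g n * rs (xt t) n) := hg.mul (rs_multS _)
  have hvf : Vanish f := vanish_of_primes hf hm (fun p hp => by rw [hfp p hp, rs_prime _ hp]) hv
  exact ⟨hvf.aperiodic hf, fairAlong_of_vanish le_rfl hvf⟩

end Pool.Agent.Lib.P4a7640L
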