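import Mathlib
import Pool.Agent.Lib.P4a7640L.Final

/-!
# An explicit family of multiplicative functions satisfying Q1 outside a set of dimension 1/2
-/

open Pool.Agent.Lib.P4a7640

namespace Pool.Agent.Lib.P4a7640L.LogLogFamily

/-- Let `g : ℕ → {-1,1}` be any multiplicative function. There is a set `E` of real numbers of
Hausdorff dimension at most `1/2` such that for every real `t > 0` outside `E`, every
multiplicative function `f : ℕ → {-1,1}` with `f(p) = g(p) (-1)^⌊t log log p⌋` for all primes `p`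
is aperiodic and has a unique Furstenberg system, which is the `(1/2, 1/2)` Bernoulli shift. -/
theorem result (g : ℕ → ℤˣ) (hg : MultS g) :
    ∃ E : Set ℝ, dimH E ≤ 1 / 2 ∧ ∀ t : ℝ, 0 < t → t ∉ E → ∀ f : ℕ → ℤˣ, MultS f →
      (∀ p : ℕ, p.Prime → f p = g p * (-1) ^ ⌊t * Real.log (Real.log p)⌋) →
      Aperiodic f ∧ FairSystem f := by
  obtain ⟨E, hE, h⟩ := Pool.Agent.Lib.P4a7640L.main g hg
  exact ⟨E, hE, fun t ht htE f hf hfp => h t ht htE f hf hfp⟩

end Pool.Agent.Lib.P4a7640L.LogLogFamily
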